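import Pool.Agent.Helper71.ZV.V2
import Pool.Agent.Helper12.Z4.Main
import Pool.Agent.Helper53.TK.PlR

/-! ZV-6: block [V] in the form of `Helper12/Z4/Main.lean`. -/

set_option autoImplicit false

namespace Pool.Agent.Helper71.ZV

open Pool.Agent.Helper71.FC

theorem p2 : P2 := by
  intro θ hF h0 h1 h2 h3
  refine ⟨?_, ?_, fun k hk ξ hξ => Pool.Agent.Helper53.TK.pl_gen hF h0 h1 h2 h3 k hk hξ⟩
  · have := Pool.Agent.Helper53.TK.pl_ek hF h0 h1 h2 h3 4 (by norm_num)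
    omega
  · have := Pool.Agent.Helper53.TK.pl_ek hF h0 h1 h2 h3 5 (by norm_num)
    omega

theorem iv1 : Pool.Agent.Helper12.Z4.IV1 :=
  fun _ hY h30 h31 h32 h33 h42 h43 h3 => v1 p2 hY h30 h31 h32 h33 h42 h43 h3

theorem iv2_of (hP4 : P4) : Pool.Agent.Helper12.Z4.IV2 :=
  fun _ hY h30 h31 h32 h33 h42 h43 h3 => v2 hP4 hY h30 h31 h32 h33 h42 h43 h3

theorem iv2 : Pool.Agent.Helper12.Z4.IV2 :=
  iv2_of fun _ _ _ _ h2 _ _ hX hX' _ hp h3 h4 =>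
    Pool.Agent.Helper53.TK.pl_RL_pt h2 hX hX' hp h3 h4

end Pool.Agent.Helper71.ZV
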