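import Pool.Agent.Helper71.FC.Flag
import Pool.Agent.Helper18.LB.Alg

/-! ZV-1 (S00166, case Y, z = 4): `M = B^sat / B` of `V ⊃ H` when sections of the hyperplane lift. -/

set_option autoImplicit false

namespace Pool.Agent.Helper71.ZV

open MvPolynomial
open scoped BigOperators
open Pool.Agent.Helper71.FL (w12 pf ct Dec Closed dd at0 emb res)
open Pool.Agent.Helper71.FC

variable {n : ℕ}

theorem at0_X0 : at0 n ℂ (X 0) = 0 := by
  unfold at0
  rw [aeval_X]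
  rfl

theorem at0_Xs (l : Fin n) : at0 n ℂ (X l.succ) = X l := by
  unfold at0
  rw [aeval_X]
  rfl

theorem at0_hom {f : Pn (n + 1)} {d : ℕ} (h : f.IsHomogeneous d) : (at0 n ℂ f).IsHomogeneous d := by
  rw [at0_eq_lsub]
  exact lsub_hom h

theorem X0_ne : (X 0 : Pn (n + 1)) ≠ 0 := X_ne_zero 0

/-- all sections of degree `k` of the hyperplane lift -/
def Lft (θ : F2 (n + 1)) (k : ℕ) : Prop := ∀ ζ ∈ EE (rs2 θ) k, ∃ ξ ∈ EE θ k, ∀ i, res ξ i = ζ i

/-- `M[d] = 0` -/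
def MZ {m : ℕ} (θ : F2 m) (d : ℕ) : Prop := ∀ b ∈ BS θ d, IsB θ b

theorem X0_BS {θ : F2 (n + 1)} {d : ℕ} {b : F3 (n + 1)} (hb : b ∈ BS θ d) :
    (fun i j k => X 0 * b i j k) ∈ BS θ (d + 1) := by
  refine ⟨fun i j k => ?_, hb.2.smul _⟩
  have := (isHomogeneous_X ℂ (0 : Fin (n + 1))).mul (hb.1 i j k)
  rwa [add_comm 1 d] at this

theorem y_BS {m : ℕ} {θ : F2 m} {d : ℕ} {b : F3 m} {y : Pn m} (hy : y.IsHomogeneous 1) (hb : b ∈ BS θ d) :
    (fun i j k => y * b i j k) ∈ BS θ (d + 1) := by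
  refine ⟨fun i j k => ?_, hb.2.smul _⟩
  have := hy.mul (hb.1 i j k)
  rwa [add_comm 1 d] at this

/-- a 1-form which restricts to zero, times the form: divisible by `X 0` -/
theorem IsB_of_res {θ : F2 (n + 1)} {b : F3 (n + 1)} {c : F1 (n + 1)}
    (hc : ∀ i j k, X 0 * b i j k = w12 c θ i j k) (hne : ∃ i j, rs2 θ i j ≠ 0)
    {k : ℕ} (hr : ∃ ξ ∈ EE θ k, ∀ i, res ξ i = res c i) : IsB θ b := by
  obtain ⟨ξ, hξ, hξc⟩ := hr
  -- `c - ξ` restricts to zero
  have h1 : ∀ i, res (fun l => c l - ξ l) i = 0 := by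
    intro i
    show at0 n ℂ (c i.succ - ξ i.succ) = 0
    rw [map_sub]
    have := hξc i
    change at0 n ℂ (ξ i.succ) = at0 n ℂ (c i.succ) at this
    rw [this, sub_self]
  have h2 : ∀ i j k, X 0 * b i j k = w12 (fun l => c l - ξ l) θ i j k := by
    intro i j k
    rw [Pool.Agent.Helper71.FL.w12_sub, hξ.2, sub_zero, hc]
  -- component `0`
  obtain ⟨i0, j0, hij⟩ := hne
  have h3 : at0 n ℂ (c 0 - ξ 0) = 0 := by
    have h4 := congrArg (at0 n ℂ) (h2 0 i0.succ j0.succ)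
    rw [map_mul, at0_X0, zero_mul] at h4
    have h5 : at0 n ℂ (w12 (fun l => c l - ξ l) θ 0 i0.succ j0.succ) =
        at0 n ℂ (c 0 - ξ 0) * rs2 θ i0 j0 := by
      unfold w12
      rw [map_add, map_add, map_mul, map_mul, map_mul]
      have e1 : at0 n ℂ (c i0.succ - ξ i0.succ) = 0 := h1 i0
      have e2 : at0 n ℂ (c j0.succ - ξ j0.succ) = 0 := h1 j0
      rw [e1, e2, zero_mul, zero_mul, add_zero, add_zero]
      rfl
    rw [h5] at h4
    rcases mul_eq_zero.mp h4.symm with h6 | h6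
    · exact h6
    · exact absurd h6 hij
  have h4 : ∀ i, ∃ g, c i - ξ i = X 0 * g := by
    intro i
    refine (at0_eq_zero_iff _).mp ?_
    refine Fin.cases h3 (fun i => ?_) i
    exact h1 i
  choose e he using h4
  refine ⟨e, fun i j k => ?_⟩
  have h5 : X 0 * b i j k = X 0 * w12 e θ i j k := by
    rw [h2]
    have : (fun l => c l - ξ l) = fun l => X 0 * e l := funext he
    rw [this, Pool.Agent.Helper71.FL.w12_smul]
  exact mul_left_cancel₀ X0_ne h5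

theorem res_mem {θ : F2 (n + 1)} {b : F3 (n + 1)} {c : F1 (n + 1)} {k : ℕ}
    (hc : ∀ i j k, X 0 * b i j k = w12 c θ i j k) (hck : ∀ i, (c i).IsHomogeneous k) :
    res c ∈ EE (rs2 θ) k :=
  ⟨fun i => at0_hom (hck i.succ), fun i j l => res_of_mul hc i j l⟩

/-- one step down -/
theorem down {θ : F2 (n + 1)} (hθ : ∀ i j, (θ i j).IsHomogeneous 3) (hne : ∃ i j, rs2 θ i j ≠ 0)
    {k : ℕ} (hL : Lft θ k) (hM : MZ θ (k + 3)) : MZ θ (k + 2) := by
  intro b hb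
  have h1 := X0_BS hb
  have h2 : (fun i j l => X 0 * b i j l) ∈ BB θ (k + 3) := ⟨h1.1, hM _ h1⟩
  obtain ⟨c, hc1, hc2⟩ := (mem_BB_iff hθ).mp h2
  exact IsB_of_res hc2 hne (hL _ (res_mem hc2 hc1))

/-- `M[d] = 0` for all `d ≥ k0 + 2` -/
theorem top {θ : F2 (n + 1)} (hθ : ∀ i j, (θ i j).IsHomogeneous 3) (hne : ∃ i j, rs2 θ i j ≠ 0)
    {k0 : ℕ} (hL : ∀ k, k0 ≤ k → Lft θ k) (d : ℕ) (hd : k0 + 2 ≤ d) : MZ θ d := by
  obtain ⟨D, hD⟩ := BS_large hθ
  have key : ∀ r d, k0 + 2 ≤ d → D ≤ d + r → MZ θ d := by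
    intro r
    induction r with
    | zero => exact fun d _ h2 b hb => hD d h2 b hb
    | succ r ih =>
      intro d h1 h2
      obtain ⟨k, rfl⟩ := Nat.exists_eq_add_of_le h1
      have h3 : k0 + 2 + k = (k0 + k) + 2 := by omega
      rw [h3]
      exact down hθ hne (hL (k0 + k) (by omega)) (ih _ (by omega) (by omega))
  exact key D d hd (by omega)

theorem MZ_low {m : ℕ} {θ : F2 (m + 1)} (hθ : ∀ i j, (θ i j).IsHomogeneous 3) {d : ℕ} (hd : d < 2)
    (h : MZ θ (d + 1)) : MZ θ d := by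
  intro b hb
  have h1 := X0_BS hb
  have h2 : (fun i j l => X 0 * b i j l) ∈ BB θ (d + 1) := ⟨h1.1, h _ h1⟩
  have h3 := BB_small hθ (by omega) h2
  refine ⟨0, fun i j k => ?_⟩
  have h4 : X 0 * b i j k = 0 := congrFun (congrFun (congrFun h3 i) j) k
  rcases mul_eq_zero.mp h4 with h5 | h5
  · exact absurd h5 X0_ne
  · rw [h5]
    simp [w12]

theorem rs3_mem {θ : F2 (n + 1)} {d : ℕ} {b : F3 (n + 1)} (hb : b ∈ BS θ d) : rs3 b ∈ BS (rs2 θ) d :=
  ⟨fun i j k => at0_hom (hb.1 i.succ j.succ k.succ), IsBsat_rs3 hb.2⟩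

/-- from the hyperplane to the space in low degrees -/
theorem MZ_up {θ : F2 (n + 1)} (hn : 3 ≤ n) (hθ : ∀ i j, (θ i j).IsHomogeneous 3) (hdec : Dec θ)
    (hp : Prim2 (rs2 θ)) (h0 : hz θ) {D : ℕ} (h : ∀ d ≤ D, MZ (rs2 θ) d) : ∀ d ≤ D, MZ θ d := by
  intro d
  induction d with
  | zero =>
    intro _ b hb
    have h1 := BS_res0 hn hθ hdec hp hb (h 0 (by omega) _ (rs3_mem hb))
    rw [h1]
    exact IsB.zero' θ
  | succ d ih =>
    intro hd b hb
    obtain ⟨b1, hb1, c, hc⟩ := BS_res hn hθ hdec hp h0 hb (h (d + 1) hd _ (rs3_mem hb))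
    have h2 := (ih (by omega) b1 hb1).smul (X 0)
    have h3 := h2.add ⟨c, fun i j k => rfl⟩
    have h4 : b = fun i j k => X 0 * b1 i j k + w12 c θ i j k := by
      funext i j k
      exact hc i j k
    rw [h4]
    exact h3

/-- sections of all degrees `≥ k0` lift if those of degree `k0` do and the plane is generated in degree `k0` -/
theorem Lft_gen {θ : F2 (n + 1)} {k0 : ℕ} (h0 : Lft θ k0)
    (hg : ∀ k, k0 ≤ k → ∀ ξ ∈ EE (rs2 θ) (k + 1), ∃ f : Fin n → F1 n, (∀ l, f l ∈ EE (rs2 θ) k) ∧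
      ∀ i, ξ i = ∑ l, X l * f l i) (k : ℕ) (hk : k0 ≤ k) : Lft θ k := by
  induction k, hk using Nat.le_induction with
  | base => exact h0
  | succ k hk ih =>
    intro ζ hζ
    obtain ⟨f, hf, hs⟩ := hg k hk ζ hζ
    choose ξ hξ hr using fun l => ih (f l) (hf l)
    refine ⟨fun i => ∑ l : Fin n, X l.succ * ξ l i, ⟨fun i => ?_, fun i j m => ?_⟩, fun i => ?_⟩
    · refine IsHomogeneous.sum _ _ _ fun l _ => ?_
      have := (isHomogeneous_X ℂ l.succ).mul ((hξ l).1 i)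
      rwa [add_comm 1 k] at this
    · have h1 : w12 (fun i => ∑ l : Fin n, X l.succ * ξ l i) θ i j m =
          ∑ l : Fin n, X l.succ * w12 (ξ l) θ i j m := by
        unfold w12
        rw [Finset.sum_mul, Finset.sum_mul, Finset.sum_mul, ← Finset.sum_add_distrib,
          ← Finset.sum_add_distrib]
        exact Finset.sum_congr rfl fun l _ => by ring
      rw [h1]
      exact Finset.sum_eq_zero fun l _ => by rw [(hξ l).2, mul_zero]
    · show at0 n ℂ (∑ l : Fin n, X l.succ * ξ l i.succ) = ζ i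
      rw [map_sum, hs i]
      refine Finset.sum_congr rfl fun l _ => ?_
      rw [map_mul, at0_Xs, ← hr l i]
      rfl

/-- restriction of sections as a linear map -/
noncomputable def resE (θ : F2 (n + 1)) (k : ℕ) : EE θ k →ₗ[ℂ] EE (rs2 θ) k where
  toFun ξ := ⟨res ξ.1, res_mem_EE ξ.2⟩
  map_add' a b := by
    apply Subtype.ext
    funext i
    show at0 n ℂ ((a.1 + b.1) i.succ) = at0 n ℂ (a.1 i.succ) + at0 n ℂ (b.1 i.succ)
    rw [Pi.add_apply, map_add]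
  map_smul' c a := by
    apply Subtype.ext
    funext i
    show at0 n ℂ ((c • a.1) i.succ) = c • at0 n ℂ (a.1 i.succ)
    rw [Pi.smul_apply, map_smul]

theorem resE_inj {θ : F2 (n + 1)} (hne : ∃ i j, rs2 θ i j ≠ 0) {k : ℕ} (h : EE θ k = ⊥) :
    Function.Injective (resE θ (k + 1)) := by
  rw [← LinearMap.ker_eq_bot, LinearMap.ker_eq_bot']
  intro ξ hξ
  obtain ⟨η, hη, h1⟩ := EE_ker hne ξ.2 (fun i => congrFun (congrArg Subtype.val hξ) i)
  rw [h, Submodule.mem_bot] at hη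
  apply Subtype.ext
  funext i
  rw [h1, hη]
  show X 0 * (0 : Pn (n + 1)) = 0
  rw [mul_zero]

theorem Lft_of_finrank {θ : F2 (n + 1)} (hne : ∃ i j, rs2 θ i j ≠ 0) {k : ℕ} (h : EE θ k = ⊥)
    (hd : Module.finrank ℂ (EE (rs2 θ) (k + 1)) ≤ Module.finrank ℂ (EE θ (k + 1))) : Lft θ (k + 1) := by
  have := finite_EE θ (k + 1)
  have := finite_EE (rs2 θ) (k + 1)
  have h1 := resE_inj hne h
  have h2 := LinearMap.finrank_le_finrank_of_injective h1
  have h3 : Function.Surjective (resE θ (k + 1)) :=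
    (LinearMap.injective_iff_surjective_of_finrank_eq_finrank (le_antisymm h2 hd)).mp h1
  intro ζ hζ
  obtain ⟨ξ, hξ⟩ := h3 ⟨ζ, hζ⟩
  exact ⟨ξ.1, ξ.2, fun i => congrFun (congrArg Subtype.val hξ) i⟩

end Pool.Agent.Helper71.ZV
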