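import Pool.Agent.Helper71.ZV.M
import Pool.Agent.Helper12.Z4.Defs
import Pool.Agent.Helper18.LB.Dim3

/-! ZV-3 (S00166, case Y, z = 4, section 6): counting of relations. -/

set_option autoImplicit false

namespace Pool.Agent.Helper71.ZV

open MvPolynomial
open scoped BigOperators
open Pool.Agent.Helper71.FL (w12 pf ct Dec Closed dd at0 emb res)
open Pool.Agent.Helper93 (lsub lmap OF pb)
open Pool.Agent.Helper71.FC
open Pool.Agent.Helper12.Z4 (RL KX avE RK mem_RL mem_KX)

variable {n : ℕ}

instance finH (m k : ℕ) : Module.Finite ℂ (homogeneousSubmodule (Fin m) ℂ k) :=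
  Module.Finite.iff_fg.mpr (homogeneousSubmodule_fg (Fin m) ℂ k)

theorem finite_RK {e m : ℕ} (ε : Fin e → F1 m) (k : ℕ) : Module.Finite ℂ (RK ε k) := by
  let f : RK ε k →ₗ[ℂ] (Fin e → homogeneousSubmodule (Fin m) ℂ k) :=
    { toFun := fun c i => ⟨c.1 i, c.2.1 i⟩
      map_add' := fun a b => rfl
      map_smul' := fun c a => rfl }
  refine Module.Finite.of_injective f fun a b hab => ?_
  apply Subtype.ext
  funext i
  exact congrArg Subtype.val (congrFun hab i)

/-- restriction of relations -/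
noncomputable def resK {e : ℕ} (ε : Fin e → F1 (n + 1)) (k : ℕ) :
    RK ε k →ₗ[ℂ] RK (fun i => res (ε i)) k where
  toFun c := ⟨fun i => at0 n ℂ (c.1 i), fun i => at0_hom (c.2.1 i), fun j => by
    have h := congrArg (at0 n ℂ) (c.2.2 j.succ)
    rw [map_sum, map_zero] at h
    rw [← h]
    exact Finset.sum_congr rfl fun i _ => (map_mul _ _ _).symm⟩
  map_add' a b := by
    apply Subtype.ext
    funext i
    show at0 n ℂ (a.1 i + b.1 i) = at0 n ℂ (a.1 i) + at0 n ℂ (b.1 i)
    rw [map_add]
  map_smul' c a := by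
    apply Subtype.ext
    funext i
    show at0 n ℂ (c • a.1 i) = c • at0 n ℂ (a.1 i)
    rw [map_smul]

theorem count_RK {e : ℕ} (ε : Fin e → F1 (n + 1)) (k : ℕ) :
    Module.finrank ℂ (RK ε (k + 1)) ≤
      Module.finrank ℂ (RK (fun i => res (ε i)) (k + 1)) + Module.finrank ℂ (RK ε k) := by
  have f1 := finite_RK ε (k + 1)
  have f2 := finite_RK ε k
  have f3 := finite_RK (fun i => res (ε i)) (k + 1)
  have h1 := LinearMap.finrank_range_add_finrank_ker (resK ε (k + 1))
  have h2 : Module.finrank ℂ (LinearMap.range (resK ε (k + 1))) ≤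
      Module.finrank ℂ (RK (fun i => res (ε i)) (k + 1)) := Submodule.finrank_le _
  have h3 : Module.finrank ℂ (LinearMap.ker (resK ε (k + 1))) ≤ Module.finrank ℂ (RK ε k) := by
    -- multiplication by `X 0`
    let g : RK ε k →ₗ[ℂ] RK ε (k + 1) :=
      { toFun := fun c => ⟨fun i => X 0 * c.1 i, fun i => by
            have := (isHomogeneous_X ℂ (0 : Fin (n + 1))).mul (c.2.1 i)
            rwa [add_comm 1 k] at this, fun j => by
            have h := c.2.2 j
            have h' : ∑ i, X 0 * c.1 i * ε i j = X 0 * ∑ i, c.1 i * ε i j := by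
              rw [Finset.mul_sum]
              exact Finset.sum_congr rfl fun i _ => by ring
            rw [h', h, mul_zero]⟩
        map_add' := fun a b => by
          apply Subtype.ext
          funext i
          show X 0 * (a.1 i + b.1 i) = X 0 * a.1 i + X 0 * b.1 i
          rw [mul_add]
        map_smul' := fun c a => by
          apply Subtype.ext
          funext i
          show X 0 * (c • a.1 i) = c • (X 0 * a.1 i)
          rw [mul_smul_comm] }
    have h4 : LinearMap.ker (resK ε (k + 1)) ≤ LinearMap.range g := by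
      intro c hc
      rw [LinearMap.mem_ker] at hc
      have h5 : ∀ i, ∃ q, c.1 i = X 0 * q := by
        intro i
        exact (at0_eq_zero_iff _).mp (congrFun (congrArg Subtype.val hc) i)
      choose q hq using h5
      refine ⟨⟨q, fun i => ?_, fun j => ?_⟩, ?_⟩
      · have h6 := c.2.1 i
        rw [hq, add_comm k 1] at h6
        exact Pool.Agent.Helper18.LB.hom_right h6 (isHomogeneous_X ℂ 0) X0_ne
      · have h6 := c.2.2 j
        have h7 : ∑ i, c.1 i * ε i j = X 0 * ∑ i, q i * ε i j := by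
          rw [Finset.mul_sum]
          exact Finset.sum_congr rfl fun i _ => by rw [hq]; ring
        rw [h7] at h6
        rcases mul_eq_zero.mp h6 with h8 | h8
        · exact absurd h8 X0_ne
        · exact h8
      · apply Subtype.ext
        funext i
        exact (hq i).symm
    exact (Submodule.finrank_mono h4).trans (LinearMap.finrank_range_le g)
  omega

theorem RK_zero {e m : ℕ} {ε : Fin e → F1 m} (h : LinearIndependent ℂ ε) :
    Module.finrank ℂ (RK ε 0) = 0 := by
  have f1 := finite_RK ε 0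
  rw [Submodule.finrank_eq_zero, Submodule.eq_bot_iff]
  intro c hc
  have h1 : ∀ i, c i = C (coeff 0 (c i)) := fun i =>
    totalDegree_eq_zero_iff_eq_C.1 (Nat.le_zero.1 ((hc.1 i).totalDegree_le))
  have h2 : ∑ i, coeff 0 (c i) • ε i = 0 := by
    funext j
    rw [Finset.sum_apply]
    have h3 := hc.2 j
    rw [Pi.zero_apply, ← h3]
    refine Finset.sum_congr rfl fun i _ => ?_
    rw [Pi.smul_apply, smul_eq_C_mul, ← h1]
  have h3 := Fintype.linearIndependent_iff.mp h _ h2
  funext i
  rw [h1 i, h3 i, C_0]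
  rfl

/-- multiplication map -/
noncomputable def mulE {e m : ℕ} {θ : F2 m} {ε : Fin e → F1 m} (hε : ∀ i, ε i ∈ EE θ 3) (k : ℕ) :
    (Fin e → homogeneousSubmodule (Fin m) ℂ k) →ₗ[ℂ] EE θ (k + 3) where
  toFun c := ⟨fun j => ∑ i, (c i : Pn m) * ε i j, fun j =>
      IsHomogeneous.sum _ _ _ fun i _ => ((c i).2 : (c i : Pn m).IsHomogeneous k).mul ((hε i).1 j), fun i j l => by
      have h1 : w12 (fun j => ∑ i, (c i : Pn m) * ε i j) θ i j l =
          ∑ a, (c a : Pn m) * w12 (ε a) θ i j l := by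
        unfold w12
        rw [Finset.sum_mul, Finset.sum_mul, Finset.sum_mul, ← Finset.sum_add_distrib,
          ← Finset.sum_add_distrib]
        exact Finset.sum_congr rfl fun a _ => by ring
      rw [h1]
      exact Finset.sum_eq_zero fun a _ => by rw [(hε a).2, mul_zero]⟩
  map_add' a b := by
    apply Subtype.ext
    funext j
    show ∑ i, (((a + b) i : homogeneousSubmodule (Fin m) ℂ k) : Pn m) * ε i j =
      ∑ i, (a i : Pn m) * ε i j + ∑ i, (b i : Pn m) * ε i j
    rw [← Finset.sum_add_distrib]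
    refine Finset.sum_congr rfl fun i _ => ?_
    rw [← add_mul]
    rfl
  map_smul' c a := by
    apply Subtype.ext
    funext j
    show ∑ i, (((c • a) i : homogeneousSubmodule (Fin m) ℂ k) : Pn m) * ε i j =
      c • ∑ i, (a i : Pn m) * ε i j
    rw [Finset.smul_sum]
    refine Finset.sum_congr rfl fun i _ => ?_
    rw [← smul_mul_assoc]
    rfl

theorem finrank_ker_mulE {e m : ℕ} {θ : F2 m} {ε : Fin e → F1 m} (hε : ∀ i, ε i ∈ EE θ 3) (k : ℕ) :
    Module.finrank ℂ (LinearMap.ker (mulE hε k)) = Module.finrank ℂ (RK ε k) := by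
  refine LinearEquiv.finrank_eq ?_
  exact
    { toFun := fun c => ⟨fun i => (c.1 i : Pn m), fun i => (c.1 i).2, fun j =>
        congrFun (congrArg Subtype.val (LinearMap.mem_ker.mp c.2)) j⟩
      invFun := fun c => ⟨fun i => ⟨c.1 i, c.2.1 i⟩, LinearMap.mem_ker.mpr (Subtype.ext (funext fun j => c.2.2 j))⟩
      map_add' := fun a b => rfl
      map_smul' := fun c a => rfl
      left_inv := fun c => rfl
      right_inv := fun c => rfl }

theorem finrank_HS (e m k : ℕ) : Module.finrank ℂ (Fin e → homogeneousSubmodule (Fin m) ℂ k) =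
    e * Module.finrank ℂ (homogeneousSubmodule (Fin m) ℂ k) := by
  rw [Module.finrank_pi_fintype]
  simp

theorem RK_ge {e m : ℕ} {θ : F2 m} {ε : Fin e → F1 m} (hε : ∀ i, ε i ∈ EE θ 3) (k : ℕ) :
    e * Module.finrank ℂ (homogeneousSubmodule (Fin m) ℂ k) ≤
      Module.finrank ℂ (EE θ (k + 3)) + Module.finrank ℂ (RK ε k) := by
  have h1 := LinearMap.finrank_range_add_finrank_ker (mulE hε k)
  have f1 := finite_EE θ (k + 3)
  have h2 := Submodule.finrank_le (LinearMap.range (mulE hε k))
  rw [finrank_ker_mulE, finrank_HS] at h1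
  omega

theorem RK_eq {e m : ℕ} {θ : F2 m} {ε : Fin e → F1 m} (hε : ∀ i, ε i ∈ EE θ 3) (k : ℕ)
    (hs : Function.Surjective (mulE hε k)) :
    e * Module.finrank ℂ (homogeneousSubmodule (Fin m) ℂ k) =
      Module.finrank ℂ (EE θ (k + 3)) + Module.finrank ℂ (RK ε k) := by
  have h1 := LinearMap.finrank_range_add_finrank_ker (mulE hε k)
  rw [finrank_ker_mulE, finrank_HS, LinearMap.range_eq_top.mpr hs, finrank_top] at h1
  exact h1.symm

/-- the multiplication maps are surjective if `E_(k+1) = S_1 E_k` for `k ≥ 3` -/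
theorem mulE_surj {e m : ℕ} {θ : F2 m} {ε : Fin e → F1 m} (hε : ∀ i, ε i ∈ EE θ 3)
    (hsp : ∀ ξ ∈ EE θ 3, ∃ c : Fin e → ℂ, ξ = ∑ i, c i • ε i)
    (hg : ∀ k, 3 ≤ k → ∀ ξ ∈ EE θ (k + 1), ∃ f : Fin m → F1 m, (∀ l, f l ∈ EE θ k) ∧
      ∀ i, ξ i = ∑ l, X l * f l i) (k : ℕ) : Function.Surjective (mulE hε k) := by
  induction k with
  | zero =>
    rintro ⟨ξ, hξ⟩
    obtain ⟨c, hc⟩ := hsp ξ hξ
    refine ⟨fun i => ⟨C (c i), isHomogeneous_C _ _⟩, Subtype.ext (funext fun j => ?_)⟩
    show ∑ i, C (c i) * ε i j = ξ j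
    rw [hc, Finset.sum_apply]
    refine Finset.sum_congr rfl fun i _ => ?_
    rw [Pi.smul_apply, smul_eq_C_mul]
  | succ k ih =>
    rintro ⟨ξ, hξ⟩
    have h1 : k + 1 + 3 = (k + 3) + 1 := by omega
    obtain ⟨f, hf, hs⟩ := hg (k + 3) (by omega) ξ (h1 ▸ hξ)
    choose c hc using fun l => ih ⟨f l, hf l⟩
    refine ⟨fun i => ⟨∑ l, X l * (c l i : Pn m), ?_⟩, Subtype.ext (funext fun j => ?_)⟩
    · refine IsHomogeneous.sum _ _ _ fun l _ => ?_
      have := (isHomogeneous_X ℂ l).mul ((c l i).2 : (c l i : Pn m).IsHomogeneous k)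
      rwa [add_comm 1 k] at this
    · show ∑ i, (∑ l, X l * (c l i : Pn m)) * ε i j = ξ j
      rw [hs j]
      have h2 : ∀ l, f l j = ∑ i, (c l i : Pn m) * ε i j := by
        intro l
        exact (congrFun (congrArg Subtype.val (hc l)) j).symm
      simp only [h2, Finset.sum_mul, Finset.mul_sum]
      rw [Finset.sum_comm]
      refine Finset.sum_congr rfl fun l _ => Finset.sum_congr rfl fun i _ => by ring

end Pool.Agent.Helper71.ZV
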