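import Pool.Agent.Helper71.ZV.RK
import Pool.Agent.Helper53.TK.In

/-! ZV-4 (S00166, case Y, z = 4, section 6): relations as linear maps, restriction and transport. -/

set_option autoImplicit false

namespace Pool.Agent.Helper71.ZV

open MvPolynomial
open scoped BigOperators
open Pool.Agent.Helper71.FL (w12 pf ct Dec Closed dd at0 emb res)
open Pool.Agent.Helper93 (lsub lmap OF pb)
open Pool.Agent.Helper71.FC
open Pool.Agent.Helper12.Z4 (RL KX avE RK mem_RL mem_KX)

variable {n m : ℕ}

instance finRL {m : ℕ} (θ : F2 m) : Module.Finite ℂ (RL θ) := by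
  have := finite_EE θ 3
  infer_instance

/-- restriction of relations along `φ` -/
theorem exists_rlt {θ : F2 n} {θ' : F2 m} {φ : Fin n → Fin m → ℂ} (h : θ' = pb2 φ θ) :
    ∃ T : RL θ →ₗ[ℂ] RL θ', ∀ (X : RL θ) (p : Fin m → ℂ), ((T X).1 p : F1 m) = pb φ (X.1 (lmap φ p) : F1 n) := by
  subst h
  let T0 : ((Fin n → ℂ) →ₗ[ℂ] EE θ 3) → ((Fin m → ℂ) →ₗ[ℂ] EE (pb2 φ θ) 3) := fun X =>
    { toFun := fun p => ⟨pb φ (X (lmap φ p) : F1 n), EE_pb (X (lmap φ p)).2 φ⟩
      map_add' := fun p q => by
        apply Subtype.ext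
        show pb φ (X (lmap φ (p + q)) : F1 n) = pb φ (X (lmap φ p) : F1 n) + pb φ (X (lmap φ q) : F1 n)
        rw [map_add, map_add]
        exact Pool.Agent.Helper53.TK.pb_add'' φ _ _
      map_smul' := fun c p => by
        apply Subtype.ext
        show pb φ (X (lmap φ (c • p)) : F1 n) = c • pb φ (X (lmap φ p) : F1 n)
        rw [map_smul, map_smul]
        exact Pool.Agent.Helper53.TK.pb_csmul φ c _ }
  have hT0 : ∀ X p, (T0 X p : F1 m) = pb φ (X (lmap φ p) : F1 n) := fun X p => rfl
  have hmem : ∀ X ∈ RL θ, T0 X ∈ RL (pb2 φ θ) := by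
    intro X hX p j
    rw [hT0, Pool.Agent.Helper53.TK.eval_pb']
    refine Finset.sum_eq_zero fun i _ => ?_
    rw [hX (lmap φ p) i, mul_zero]
  refine ⟨{ toFun := fun X => ⟨T0 X.1, hmem X.1 X.2⟩, map_add' := fun X Y => ?_, map_smul' := fun c X => ?_ },
    fun X p => hT0 X.1 p⟩
  · apply Subtype.ext
    apply LinearMap.ext
    intro p
    apply Subtype.ext
    exact Pool.Agent.Helper53.TK.pb_add'' φ _ _
  · apply Subtype.ext
    apply LinearMap.ext
    intro p
    apply Subtype.ext
    exact Pool.Agent.Helper53.TK.pb_csmul φ c _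

theorem lmap_inv {g g' : Fin n → Fin n → ℂ} (hg : Inv g g') (x : Fin n → ℂ) :
    lmap g (lmap g' x) = x := by
  funext i
  have h1 : lmap g (lmap g' x) i = ∑ j, g i j * ∑ l, g' j l * x l := rfl
  rw [h1]
  have h2 : ∑ j, g i j * ∑ l, g' j l * x l = ∑ l, mm g g' i l * x l := by
    unfold mm
    simp only [Finset.mul_sum, Finset.sum_mul]
    rw [Finset.sum_comm]
    exact Finset.sum_congr rfl fun l _ => Finset.sum_congr rfl fun j _ => by ring
  rw [h2, hg.1]
  unfold idm
  simp

/-- transport of relations to other coordinates -/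
theorem exists_transport {θ : F2 n} {g g' : Fin n → Fin n → ℂ} (hg : Inv g g') :
    ∃ T : RL (pb2 g θ) →ₗ[ℂ] RL θ, Function.Injective T ∧ ∀ (X : RL (pb2 g θ)) (p : Fin n → ℂ),
      ((T X).1 p : F1 n) = pb g' (X.1 (lmap g' p) : F1 n) := by
  have h1 : θ = pb2 g' (pb2 g θ) := by rw [pb2_mm, hg.1, pb2_idm]
  obtain ⟨T, hT⟩ := exists_rlt h1
  refine ⟨T, fun X Y hXY => ?_, hT⟩
  apply Subtype.ext
  apply LinearMap.ext
  intro p
  apply Subtype.ext
  have h2 := hT X (lmap g p)
  have h2' := hT Y (lmap g p)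
  rw [hXY, h2', lmap_inv hg.symm] at h2
  have h3 : pb g (pb g' (X.1 p : F1 n)) = pb g (pb g' (Y.1 p : F1 n)) := congrArg (pb g) h2.symm
  rw [pb_mm, pb_mm, hg.2, pb_idm, pb_idm] at h3
  exact h3

theorem exists_transport' {θ : F2 n} {g g' : Fin n → Fin n → ℂ} (hg : Inv g g') :
    ∃ T : RL θ →ₗ[ℂ] RL (pb2 g θ), Function.Injective T := by
  obtain ⟨T, hT⟩ := exists_rlt (θ := θ) (φ := g) rfl
  refine ⟨T, fun X Y hXY => ?_⟩
  apply Subtype.ext
  apply LinearMap.ext
  intro p
  apply Subtype.ext
  have h2 := hT X (lmap g' p)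
  have h2' := hT Y (lmap g' p)
  rw [hXY, h2', lmap_inv hg] at h2
  have h3 : pb g' (pb g (X.1 p : F1 n)) = pb g' (pb g (Y.1 p : F1 n)) := congrArg (pb g') h2.symm
  rw [pb_mm, pb_mm, hg.1, pb_idm, pb_idm] at h3
  exact h3

theorem finrank_RL_pb2' (θ : F2 n) {g g' : Fin n → Fin n → ℂ} (hg : Inv g g') :
    Module.finrank ℂ (RL (pb2 g θ)) = Module.finrank ℂ (RL θ) := by
  obtain ⟨T, hT, -⟩ := exists_transport (θ := θ) hg
  obtain ⟨T', hT'⟩ := exists_transport' (θ := θ) hg
  exact le_antisymm (LinearMap.finrank_le_finrank_of_injective hT)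
    (LinearMap.finrank_le_finrank_of_injective hT')

/-- evaluation of linear forms -/
theorem eval_lin {f : Pn n} (hf : f.IsHomogeneous 1) (x : Fin n → ℂ) :
    eval x f = ∑ l, x l * coeff (Finsupp.single l 1) f := by
  obtain ⟨a, rfl⟩ := lf_of_hom hf
  unfold lf
  rw [map_sum]
  refine Finset.sum_congr rfl fun l _ => ?_
  rw [map_mul, eval_C, eval_X, mul_comm]
  congr 1
  rw [coeff_sum, Finset.sum_eq_single l]
  · rw [coeff_C_mul, coeff_X_same, mul_one]
  · intro k _ hk
    rw [coeff_C_mul, coeff_X, if_neg, mul_zero]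
    intro h
    exact hk (Finsupp.single_left_injective one_ne_zero h)
  · intro h
    exact absurd (Finset.mem_univ _) h

/-- relations of degree one as linear maps -/
theorem exists_toX {θ : F2 n} {e : ℕ} (ε : Module.Basis (Fin e) ℂ (EE θ 3)) :
    ∃ T : RK (fun i => (ε i : F1 n)) 1 →ₗ[ℂ] RL θ, Function.Injective T ∧
      ∀ c x, (T c).1 x = ∑ i, eval x (c.1 i) • ε i := by
  let T0 : RK (fun i => (ε i : F1 n)) 1 → ((Fin n → ℂ) →ₗ[ℂ] EE θ 3) := fun c =>
    { toFun := fun x => ∑ i, (∑ l, x l * coeff (Finsupp.single l 1) (c.1 i)) • ε i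
      map_add' := fun x y => by
        rw [← Finset.sum_add_distrib]
        refine Finset.sum_congr rfl fun i _ => ?_
        rw [← add_smul, ← Finset.sum_add_distrib]
        congr 1
        exact Finset.sum_congr rfl fun l _ => by rw [Pi.add_apply]; ring
      map_smul' := fun a x => by
        rw [RingHom.id_apply, Finset.smul_sum]
        refine Finset.sum_congr rfl fun i _ => ?_
        rw [smul_smul, Finset.mul_sum]
        congr 1
        exact Finset.sum_congr rfl fun l _ => by rw [Pi.smul_apply, smul_eq_mul]; ring }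
  have hT0 : ∀ c x, T0 c x = ∑ i, eval x (c.1 i) • ε i := by
    intro c x
    show ∑ i, (∑ l, x l * coeff (Finsupp.single l 1) (c.1 i)) • ε i = _
    exact Finset.sum_congr rfl fun i _ => by rw [eval_lin (c.2.1 i)]
  have hmem : ∀ c, T0 c ∈ RL θ := by
    intro c x j
    rw [hT0]
    have h1 : ((∑ i, eval x (c.1 i) • ε i : EE θ 3) : F1 n) j = ∑ i, C (eval x (c.1 i)) * (ε i : F1 n) j := by
      rw [AddSubmonoidClass.coe_finsetSum, Finset.sum_apply]
      refine Finset.sum_congr rfl fun i _ => ?_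
      show eval x (c.1 i) • (ε i : F1 n) j = _
      rw [smul_eq_C_mul]
    rw [h1, map_sum]
    have h2 := congrArg (eval x) (c.2.2 j)
    rw [map_sum, map_zero] at h2
    rw [← h2]
    exact Finset.sum_congr rfl fun i _ => by rw [map_mul, eval_C, map_mul]
  refine ⟨{ toFun := fun c => ⟨T0 c, hmem c⟩, map_add' := fun a b => ?_, map_smul' := fun t a => ?_ }, ?_,
    fun c x => hT0 c x⟩
  · apply Subtype.ext
    apply LinearMap.ext
    intro x
    show T0 (a + b) x = T0 a x + T0 b x
    rw [hT0, hT0, hT0, ← Finset.sum_add_distrib]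
    refine Finset.sum_congr rfl fun i _ => ?_
    rw [← add_smul]
    congr 1
    exact map_add (eval x) (a.1 i) (b.1 i)
  · apply Subtype.ext
    apply LinearMap.ext
    intro x
    show T0 (t • a) x = t • T0 a x
    rw [hT0, hT0, Finset.smul_sum]
    refine Finset.sum_congr rfl fun i _ => ?_
    rw [smul_smul]
    congr 1
    show eval x (t • a.1 i) = t * eval x (a.1 i)
    rw [smul_eq_C_mul, map_mul, eval_C]
  · refine (injective_iff_map_eq_zero _).mpr fun c hc => ?_
    apply Subtype.ext
    funext i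
    apply MvPolynomial.funext
    intro x
    have h1 : T0 c x = 0 := LinearMap.congr_fun (congrArg Subtype.val hc) x
    rw [hT0] at h1
    have h2 := Fintype.linearIndependent_iff.mp ε.linearIndependent _ h1 i
    rw [h2]
    show (0 : ℂ) = eval x ((0 : Fin e → Pn n) i)
    rw [Pi.zero_apply, map_zero]

theorem finrank_RL {θ : F2 n} {e : ℕ} (ε : Module.Basis (Fin e) ℂ (EE θ 3)) :
    Module.finrank ℂ (RL θ) = Module.finrank ℂ (RK (fun i => (ε i : F1 n)) 1) := by
  have f1 := finite_RK (fun i => (ε i : F1 n)) 1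
  apply le_antisymm
  · let c0 : ((Fin n → ℂ) →ₗ[ℂ] EE θ 3) → Fin e → Pn n := fun X i =>
      ∑ l, C (ε.repr (X (Pi.single l 1)) i) * MvPolynomial.X l
    have hev : ∀ (Y : (Fin n → ℂ) →ₗ[ℂ] EE θ 3) i (x : Fin n → ℂ), eval x (c0 Y i) = ε.repr (Y x) i := by
      intro Y i x
      show eval x (∑ l, C (ε.repr (Y (Pi.single l 1)) i) * MvPolynomial.X l) = _
      have h1 : Y x = ∑ l, x l • Y (Pi.single l 1) := by
        conv_lhs => rw [show x = ∑ l, x l • (Pi.single l (1 : ℂ) : Fin n → ℂ) by
          funext k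
          simp [Finset.sum_apply, Pi.single_apply]]
        rw [map_sum]
        exact Finset.sum_congr rfl fun l _ => map_smul _ _ _
      rw [h1, map_sum, map_sum, Finsupp.finsetSum_apply]
      refine Finset.sum_congr rfl fun l _ => ?_
      rw [map_mul, eval_C, eval_X, map_smul, Finsupp.smul_apply, smul_eq_mul, mul_comm]
    have hmem : ∀ Y ∈ RL θ, c0 Y ∈ RK (fun i => (ε i : F1 n)) 1 := by
      intro Y hY
      refine ⟨fun i => ?_, fun j => ?_⟩
      · refine IsHomogeneous.sum _ _ _ fun l _ => ?_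
        simpa using (isHomogeneous_C (Fin n) (ε.repr (Y (Pi.single l 1)) i)).mul (isHomogeneous_X ℂ l)
      · apply MvPolynomial.funext
        intro x
        rw [map_zero, map_sum, ← hY x j]
        have h1 : (Y x : F1 n) j = ∑ i, C (ε.repr (Y x) i) * (ε i : F1 n) j := by
          conv_lhs => rw [← ε.sum_repr (Y x)]
          rw [AddSubmonoidClass.coe_finsetSum, Finset.sum_apply]
          refine Finset.sum_congr rfl fun i _ => ?_
          show ε.repr (Y x) i • (ε i : F1 n) j = _
          rw [smul_eq_C_mul]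
        rw [h1, map_sum]
        exact Finset.sum_congr rfl fun i _ => by rw [map_mul, map_mul, eval_C, hev]
    let T : RL θ →ₗ[ℂ] RK (fun i => (ε i : F1 n)) 1 :=
      { toFun := fun Y => ⟨c0 Y.1, hmem Y.1 Y.2⟩
        map_add' := fun Y Z => by
          apply Subtype.ext
          funext i
          apply MvPolynomial.funext
          intro x
          show eval x (c0 (Y.1 + Z.1) i) = eval x (c0 Y.1 i + c0 Z.1 i)
          rw [map_add, hev, hev, hev, LinearMap.add_apply, map_add, Finsupp.add_apply]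
        map_smul' := fun t Y => by
          apply Subtype.ext
          funext i
          apply MvPolynomial.funext
          intro x
          show eval x (c0 (t • Y.1) i) = eval x (t • c0 Y.1 i)
          rw [smul_eq_C_mul, map_mul, eval_C, hev, hev, LinearMap.smul_apply, map_smul,
            Finsupp.smul_apply, smul_eq_mul] }
    have hT : Function.Injective T := by
      intro Y Z hYZ
      apply Subtype.ext
      apply LinearMap.ext
      intro x
      have h1 : ∀ i, ε.repr (Y.1 x) i = ε.repr (Z.1 x) i := by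
        intro i
        rw [← hev, ← hev]
        have h2 : c0 Y.1 i = c0 Z.1 i := congrFun (congrArg Subtype.val hYZ) i
        rw [h2]
      exact ε.repr.injective (Finsupp.ext h1)
    exact LinearMap.finrank_le_finrank_of_injective hT
  · obtain ⟨T, hT, -⟩ := exists_toX ε
    exact LinearMap.finrank_le_finrank_of_injective hT

end Pool.Agent.Helper71.ZV
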