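import Pool.Agent.Helper71.ZV.M
import Pool.Agent.Helper71.FC.CaseY
import Pool.Agent.Helper28.Z4.Div
import Pool.Agent.Helper12.Z4.Defs

/-! ZV-2 (S00166, case Y, z = 4, section 5): `e_3(H) = 6`, `e_3(V) = 5` is impossible.
`M_H` has dimension one and lives in degree 4, `M_V[4] = ℂ b` and `b` is killed by four linear forms: `div_eps`. -/

set_option autoImplicit false

namespace Pool.Agent.Helper71.ZV

open MvPolynomial
open scoped BigOperators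
open Pool.Agent.Helper71.FL (w12 pf ct Dec Closed dd at0 emb res)
open Pool.Agent.Helper71.FC
open Pool.Agent.Helper12.Z4 (RL KX avE RK)

variable {n : ℕ}

/-- plane facts with `e_3 = 6` (helper53) -/
def P2 : Prop := ∀ θ : F2 3, Fol θ → EE θ 0 = ⊥ → EE θ 1 = ⊥ → Module.finrank ℂ (EE θ 2) = 1 →
  Module.finrank ℂ (EE θ 3) = 6 → Module.finrank ℂ (EE θ 4) = 13 ∧ Module.finrank ℂ (EE θ 5) = 22 ∧
    ∀ k, 3 ≤ k → ∀ ξ ∈ EE θ (k + 1), ∃ f : Fin 3 → F1 3, (∀ l, f l ∈ EE θ k) ∧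
      ∀ i, ξ i = ∑ l, X l * f l i

theorem ne_of_Fol {m : ℕ} {θ : F2 m} (h : Fol θ) : ∃ i j, θ i j ≠ 0 := by
  by_contra hcon
  push Not at hcon
  exact not_isUnit_zero (h.prim 0 (fun i j => by rw [hcon]))

/-- `b, b'` are dependent modulo `B` -/
def Dpt {m : ℕ} (θ : F2 m) (b b' : F3 m) : Prop :=
  ∃ α β : ℂ, (α ≠ 0 ∨ β ≠ 0) ∧ IsB θ (fun i j k => C α * b i j k + C β * b' i j k)

/-- the kernel of `x_0` on `M[k+2]` has dimension at most `dim E_k(H)`, here one -/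
theorem dpt_of_one {θ : F2 (n + 1)} (hθ : ∀ i j, (θ i j).IsHomogeneous 3) (hne : ∃ i j, rs2 θ i j ≠ 0)
    {k : ℕ} (h1 : Module.finrank ℂ (EE (rs2 θ) k) = 1) (hM : MZ θ (k + 3)) :
    ∀ b ∈ BS θ (k + 2), ∀ b' ∈ BS θ (k + 2), Dpt θ b b' := by
  intro b hb b' hb'
  have key : ∀ b ∈ BS θ (k + 2), ∃ c : F1 (n + 1), (∀ i, (c i).IsHomogeneous k) ∧
      ∀ i j l, X 0 * b i j l = w12 c θ i j l := by
    intro b hb
    have h1 := X0_BS hb
    exact (mem_BB_iff hθ).mp ⟨h1.1, hM _ h1⟩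
  obtain ⟨c, hc1, hc2⟩ := key b hb
  obtain ⟨c', hc1', hc2'⟩ := key b' hb'
  obtain ⟨σ, hσ0, hσ⟩ := finrank_eq_one_iff'.mp h1
  obtain ⟨μ, hμ⟩ := hσ ⟨res c, res_mem hc2 hc1⟩
  obtain ⟨μ', hμ'⟩ := hσ ⟨res c', res_mem hc2' hc1'⟩
  have hμ2 : ∀ i, res c i = C μ * σ.1 i := by
    intro i
    have := congrFun (congrArg Subtype.val hμ) i
    rw [← smul_eq_C_mul]
    exact this.symm
  have hμ2' : ∀ i, res c' i = C μ' * σ.1 i := by
    intro i
    have := congrFun (congrArg Subtype.val hμ') i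
    rw [← smul_eq_C_mul]
    exact this.symm
  have hαβ : ∃ α β : ℂ, (α ≠ 0 ∨ β ≠ 0) ∧ α * μ + β * μ' = 0 := by
    by_cases h : μ = 0 ∧ μ' = 0
    · exact ⟨1, 0, Or.inl one_ne_zero, by rw [h.1, h.2]; ring⟩
    · refine ⟨μ', -μ, ?_, by ring⟩
      by_contra hcon
      push Not at hcon
      exact h ⟨neg_eq_zero.mp hcon.2, hcon.1⟩
  obtain ⟨α, β, hne0, hab⟩ := hαβ
  refine ⟨α, β, hne0, ?_⟩
  refine IsB_of_res (c := fun i => C α * c i + C β * c' i) (k := k) (fun i j l => ?_) hne ?_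
  · rw [Pool.Agent.Helper71.FL.w12_add (fun i => C α * c i) (fun i => C β * c' i),
      Pool.Agent.Helper71.FL.w12_smul, Pool.Agent.Helper71.FL.w12_smul, ← hc2, ← hc2']
    ring
  · refine ⟨0, (EE θ k).zero_mem, fun i => ?_⟩
    have e1 : res (fun i => C α * c i + C β * c' i) i = C α * res c i + C β * res c' i := by
      unfold res
      rw [map_add, map_mul, map_mul]
      have hC : ∀ t : ℂ, at0 n ℂ (C t) = C t := by
        intro t
        unfold at0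
        rw [aeval_C]
        rfl
      rw [hC, hC]
    rw [e1, hμ2, hμ2']
    have e2 : C α * (C μ * σ.1 i) + C β * (C μ' * σ.1 i) = C (α * μ + β * μ') * σ.1 i := by
      rw [C_add, C_mul, C_mul]
      ring
    rw [e2, hab, C_0, zero_mul]
    show at0 n ℂ ((0 : F1 (n + 1)) i.succ) = 0
    rw [Pi.zero_apply, map_zero]

/-- `E_2 = 0` and `dim M[4] ≤ 1` imply `M[3] = 0` (at least four variables) -/
theorem MZ3 {m : ℕ} {θ : F2 (m + 4)} (hθ : ∀ i j, (θ i j).IsHomogeneous 3) (h2 : EE θ 2 = ⊥)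
    (h4 : ∀ b ∈ BS θ 4, ∀ b' ∈ BS θ 4, Dpt θ b b') : MZ θ 3 := by
  intro b hb
  by_contra hnb
  have hX : ∀ i : Fin (m + 4), (X i : Pn (m + 4)).IsHomogeneous 1 := fun i => isHomogeneous_X ℂ i
  have key : ∀ a c : Fin (m + 4), ∃ α β : ℂ, (α ≠ 0 ∨ β ≠ 0) ∧
      ∃ ξ : F1 (m + 4), (∀ i, (ξ i).IsHomogeneous 1) ∧
        ∀ i j k, (C α * X a + C β * X c) * b i j k = w12 ξ θ i j k := by
    intro a c
    obtain ⟨α, β, hne, hB⟩ := h4 _ (y_BS (hX a) hb) _ (y_BS (hX c) hb)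
    have h5 : (fun i j k => C α * (X a * b i j k) + C β * (X c * b i j k)) ∈ BB θ 4 := by
      refine ⟨fun i j k => ?_, hB⟩
      have e1 := (isHomogeneous_C (Fin (m + 4)) α).mul ((hX a).mul (hb.1 i j k))
      have e2 := (isHomogeneous_C (Fin (m + 4)) β).mul ((hX c).mul (hb.1 i j k))
      have := e1.add e2
      rwa [show 0 + (1 + 3) = 4 from rfl] at this
    obtain ⟨ξ, h6, h7⟩ := (mem_BB_iff (d := 1) hθ).mp h5
    refine ⟨α, β, hne, ξ, h6, fun i j k => ?_⟩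
    rw [← h7]
    ring
  obtain ⟨α, β, hne, ξ, hξ1, hξ2⟩ := key ⟨0, by omega⟩ ⟨1, by omega⟩
  obtain ⟨α', β', hne', ξ', hξ1', hξ2'⟩ := key ⟨2, by omega⟩ ⟨3, by omega⟩
  have hy : (C α * X ⟨0, by omega⟩ + C β * X ⟨1, by omega⟩ : Pn (m + 4)).IsHomogeneous 1 :=
    (by simpa using (isHomogeneous_C (Fin (m + 4)) α).mul (hX ⟨0, by omega⟩) : (C α * X ⟨0, by omega⟩ : Pn (m + 4)).IsHomogeneous 1).add
      (by simpa using (isHomogeneous_C (Fin (m + 4)) β).mul (hX ⟨1, by omega⟩))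
  have hy' : (C α' * X ⟨2, by omega⟩ + C β' * X ⟨3, by omega⟩ : Pn (m + 4)).IsHomogeneous 1 :=
    (by simpa using (isHomogeneous_C (Fin (m + 4)) α').mul (hX ⟨2, by omega⟩) : (C α' * X ⟨2, by omega⟩ : Pn (m + 4)).IsHomogeneous 1).add
      (by simpa using (isHomogeneous_C (Fin (m + 4)) β').mul (hX ⟨3, by omega⟩))
  have hind : ∀ c c' : ℂ, C c * (C α * X ⟨0, by omega⟩ + C β * X ⟨1, by omega⟩ : Pn (m + 4)) +
      C c' * (C α' * X ⟨2, by omega⟩ + C β' * X ⟨3, by omega⟩) = 0 → c = 0 ∧ c' = 0 := by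
    intro c c' h
    have hev : ∀ x : Fin (m + 4) → ℂ, c * (α * x ⟨0, by omega⟩ + β * x ⟨1, by omega⟩) +
        c' * (α' * x ⟨2, by omega⟩ + β' * x ⟨3, by omega⟩) = 0 := by
      intro x
      have := congrArg (eval x) h
      simpa using this
    have e0 := hev (Pi.single ⟨0, by omega⟩ 1)
    have e1 := hev (Pi.single ⟨1, by omega⟩ 1)
    have e2 := hev (Pi.single ⟨2, by omega⟩ 1)
    have e3 := hev (Pi.single ⟨3, by omega⟩ 1)
    simp [Pi.single_apply] at e0 e1 e2 e3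
    constructor
    · rcases hne with h1 | h1
      · exact e0.resolve_right h1
      · exact e1.resolve_right h1
    · rcases hne' with h1 | h1
      · exact e2.resolve_right h1
      · exact e3.resolve_right h1
  obtain ⟨h5, l, h6⟩ := ann_lemma hnb hy hy' hind hξ2 hξ2'
  have h7 : (fun l => (C α * X ⟨0, by omega⟩ + C β * X ⟨1, by omega⟩) * ξ' l -
      (C α' * X ⟨2, by omega⟩ + C β' * X ⟨3, by omega⟩) * ξ l) ∈ EE θ 2 :=
    ⟨fun i => (hy.mul (hξ1' i)).sub (hy'.mul (hξ1 i)), h5⟩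
  rw [h2, Submodule.mem_bot] at h7
  exact h6 (congrFun h7 l)

theorem MZ_of_zero {m : ℕ} {θ : F2 (m + 1)} (hθ : ∀ i j, (θ i j).IsHomogeneous 3)
    (h2 : MZ θ 2) (h3 : MZ θ 3) : ∀ d ≤ 3, MZ θ d := by
  intro d hd
  interval_cases d
  · exact MZ_low hθ (by norm_num) (MZ_low hθ (by norm_num) h2)
  · exact MZ_low hθ (by norm_num) h2
  · exact h2
  · exact h3

/-- the structure of `M_H` for `H` of dimension 4: `M_H[d] = 0` for `d ≠ 4`, `dim M_H[4] ≤ 1` -/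
theorem MH (hP2 : P2) {θ : F2 4} (hF : Fol θ) (hFP : Fol (rs2 θ)) (e2 : EE θ 2 = ⊥)
    (e3 : Module.finrank ℂ (EE θ 3) = 6) (p0 : EE (rs2 θ) 0 = ⊥) (p1 : EE (rs2 θ) 1 = ⊥)
    (p2 : Module.finrank ℂ (EE (rs2 θ) 2) = 1) (p3 : Module.finrank ℂ (EE (rs2 θ) 3) = 6) :
    (∀ d, 5 ≤ d → MZ θ d) ∧ (∀ d ≤ 3, MZ θ d) ∧ ∀ b ∈ BS θ 4, ∀ b' ∈ BS θ 4, Dpt θ b b' := by
  have hne := ne_of_Fol hFP
  have hL3 : Lft θ 3 := Lft_of_finrank hne e2 (by rw [p3, e3])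
  have hgen := (hP2 _ hFP p0 p1 p2 p3).2.2
  have hL : ∀ k, 3 ≤ k → Lft θ k := Lft_gen hL3 hgen
  have h5 : ∀ d, 5 ≤ d → MZ θ d := fun d hd => top hF.hom hne hL d hd
  have h4 := dpt_of_one hF.hom hne p2 (h5 5 le_rfl)
  have h3 := MZ3 (m := 0) hF.hom e2 h4
  have h2 : MZ θ 2 := by
    refine down hF.hom hne (k := 0) (fun ζ hζ => ?_) h3
    rw [p0, Submodule.mem_bot] at hζ
    refine ⟨0, (EE θ 0).zero_mem, fun i => ?_⟩
    rw [hζ]
    show at0 _ ℂ ((0 : F1 4) i.succ) = 0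
    rw [Pi.zero_apply, map_zero]
  exact ⟨h5, MZ_of_zero hF.hom h2 h3, h4⟩

theorem v1_flag (hP2 : P2) {θ : F2 5} (hF : Fol θ) (hzV : hz θ) (hFH : Fol (rs2 θ))
    (hFP : Fol (rs2 (rs2 θ))) (e3 : Module.finrank ℂ (EE θ 3) = 5)
    (h2 : EE (rs2 θ) 2 = ⊥) (h3 : Module.finrank ℂ (EE (rs2 θ) 3) = 6)
    (p0 : EE (rs2 (rs2 θ)) 0 = ⊥) (p1 : EE (rs2 (rs2 θ)) 1 = ⊥)
    (p2 : Module.finrank ℂ (EE (rs2 (rs2 θ)) 2) = 1) (p3 : Module.finrank ℂ (EE (rs2 (rs2 θ)) 3) = 6) :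
    False := by
  obtain ⟨H5, Hlow, H4⟩ := MH hP2 hFH hFP h2 h3 p0 p1 p2 p3
  have hneH := ne_of_Fol hFH
  have hpH : Prim2 (rs2 θ) := hFH.prim2
  have hVlow := MZ_up (n := 4) (by norm_num) hF.hom hF.dec hpH hzV Hlow
  -- `dim M_V[4] ≤ 1`
  have V4 : ∀ b ∈ BS θ 4, ∀ b' ∈ BS θ 4, Dpt θ b b' := by
    intro b hb b' hb'
    obtain ⟨α, β, hne, hB⟩ := H4 _ (rs3_mem hb) _ (rs3_mem hb')
    refine ⟨α, β, hne, ?_⟩
    have hC : ∀ t : ℂ, at0 4 ℂ (C t) = C t := by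
      intro t
      unfold at0
      rw [aeval_C]
      rfl
    have hmem : (fun i j k => C α * b i j k + C β * b' i j k) ∈ BS θ (3 + 1) := by
      refine ⟨fun i j k => ?_, (hb.2.smul (C α)).add (hb'.2.smul (C β))⟩
      have e1 := (isHomogeneous_C (Fin 5) α).mul (hb.1 i j k)
      have e2 := (isHomogeneous_C (Fin 5) β).mul (hb'.1 i j k)
      rw [zero_add] at e1 e2
      exact e1.add e2
    have hr : IsB (rs2 θ) (rs3 (fun i j k => C α * b i j k + C β * b' i j k)) := by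
      have : rs3 (fun i j k => C α * b i j k + C β * b' i j k) =
          fun i j k => C α * rs3 b i j k + C β * rs3 b' i j k := by
        funext i j k
        unfold rs3
        rw [map_add, map_mul, map_mul, hC, hC]
      rw [this]
      exact hB
    obtain ⟨b1, hb1, c, hc⟩ := BS_res (by norm_num) hF.hom hF.dec hpH hzV hmem hr
    have e1 := ((hVlow 3 le_rfl b1 hb1).smul (X 0)).add (⟨c, fun i j k => rfl⟩ : IsB θ (fun i j k => w12 c θ i j k))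
    have e2 : (fun i j k => C α * b i j k + C β * b' i j k) = fun i j k => X 0 * b1 i j k + w12 c θ i j k := by
      funext i j k
      exact hc i j k
    rw [e2]
    exact e1
  -- a section which does not lift
  have hnl : ¬ Lft θ 3 := by
    intro hL
    have hsurj : Function.Surjective (resE θ 3) := by
      rintro ⟨ζ, hζ⟩
      obtain ⟨ξ, hξ, hr⟩ := hL ζ hζ
      exact ⟨⟨ξ, hξ⟩, Subtype.ext (funext hr)⟩
    have := finite_EE θ 3
    have e1 := LinearMap.finrank_le_finrank_of_surjective hsurj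
    have e4 : (6 : ℕ) ≤ 5 := by
      rw [← h3, ← e3]
      exact e1
    omega
  unfold Lft at hnl
  push Not at hnl
  obtain ⟨τ, hτ, hnτ⟩ := hnl
  obtain ⟨ξ, hξ1, hξ2, b5, hb5, hξ3⟩ := EE_lift hF.hom hF.dec hpH hτ
  have hnb5 : ¬ IsB θ b5 := by
    intro hB
    obtain ⟨ξ', hξ', hr⟩ := (EE_lift_iff hF.hom hneH hξ1 hξ3).mpr hB
    obtain ⟨i, hi⟩ := hnτ ξ' hξ'
    exact hi ((hr i).trans (hξ2 i))
  have hb5S : b5 ∈ BS θ (4 + 1) := by
    refine ⟨hb5, hzV b5 ?_⟩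
    have e1 : IsB θ (fun i j k => X 0 * b5 i j k) := ⟨ξ, fun i j k => (hξ3 i j k).symm⟩
    exact e1.sat
  obtain ⟨b4, hb4, c4, hc4⟩ := BS_res (by norm_num) hF.hom hF.dec hpH hzV hb5S (H5 5 le_rfl _ (rs3_mem hb5S))
  have hnb4 : ¬ IsB θ b4 := by
    intro hB
    apply hnb5
    have e1 := (hB.smul (X 0)).add (⟨c4, fun i j k => rfl⟩ : IsB θ (fun i j k => w12 c4 θ i j k))
    have e2 : b5 = fun i j k => X 0 * b4 i j k + w12 c4 θ i j k := by
      funext i j k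
      exact hc4 i j k
    rw [e2]
    exact e1
  -- four linear forms
  have hy : ∀ l : Fin 4, ∃ μ : ℂ, ∃ ζ : F1 5, (∀ i, (ζ i).IsHomogeneous 2) ∧
      ∀ i j k, (X l.succ + C μ * X 0) * b4 i j k = w12 ζ θ i j k := by
    intro l
    have hm : (fun i j k => X l.succ * b4 i j k) ∈ BS θ (4 + 1) := y_BS (isHomogeneous_X ℂ _) hb4
    obtain ⟨b1, hb1, c1, hc1⟩ := BS_res (by norm_num) hF.hom hF.dec hpH hzV hm (H5 5 le_rfl _ (rs3_mem hm))
    obtain ⟨α, β, hne, hB⟩ := V4 b1 hb1 b4 hb4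
    have hα : α ≠ 0 := by
      rintro rfl
      have hβ : β ≠ 0 := by
        rcases hne with h | h
        · exact absurd rfl h
        · exact h
      apply hnb4
      have e1 := hB.smul (C β⁻¹)
      have e2 : (fun i j k => C β⁻¹ * (C 0 * b1 i j k + C β * b4 i j k)) = b4 := by
        funext i j k
        have : (C β⁻¹ : Pn 5) * C β = 1 := by rw [← C_mul, inv_mul_cancel₀ hβ, C_1]
        rw [C_0, zero_mul, zero_add, ← mul_assoc, this, one_mul]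
      rw [e2] at e1
      exact e1
    have hα' : (C α⁻¹ : Pn 5) * C α = 1 := by rw [← C_mul, inv_mul_cancel₀ hα, C_1]
    have e1 : IsB θ (fun i j k => (X l.succ + C (α⁻¹ * β) * X 0) * b4 i j k) := by
      have e2 := (hB.smul (X 0 * C α⁻¹)).add (⟨c1, fun i j k => rfl⟩ : IsB θ (fun i j k => w12 c1 θ i j k))
      have e3 : (fun i j k => (X l.succ + C (α⁻¹ * β) * X 0) * b4 i j k) =
          fun i j k => X 0 * C α⁻¹ * (C α * b1 i j k + C β * b4 i j k) + w12 c1 θ i j k := by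
        funext i j k
        have e4 : X l.succ * b4 i j k = X 0 * b1 i j k + w12 c1 θ i j k := hc1 i j k
        rw [C_mul]
        linear_combination e4 - (X 0 * b1 i j k) * hα'
      rw [e3]
      exact e2
    have e2 : (fun i j k => (X l.succ + C (α⁻¹ * β) * X 0) * b4 i j k) ∈ BB θ (2 + 3) := by
      refine ⟨fun i j k => ?_, e1⟩
      have hl : (X l.succ + C (α⁻¹ * β) * X 0 : Pn 5).IsHomogeneous 1 :=
        (isHomogeneous_X ℂ _).add (by simpa using (isHomogeneous_C (Fin 5) (α⁻¹ * β)).mul (isHomogeneous_X ℂ 0))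
      exact hl.mul (hb4.1 i j k)
    obtain ⟨ζ, hζ1, hζ2⟩ := (mem_BB_iff hF.hom).mp e2
    exact ⟨α⁻¹ * β, ζ, hζ1, hζ2⟩
  choose μ ζ hζ1 hζ2 using hy
  have hyh : ∀ l : Fin 4, (X l.succ + C (μ l) * X 0 : Pn 5).IsHomogeneous 1 := fun l =>
    (isHomogeneous_X ℂ _).add (by simpa using (isHomogeneous_C (Fin 5) (μ l)).mul (isHomogeneous_X ℂ 0))
  refine Pool.Agent.Helper28.Z4.div_eps hF (EE θ 3) le_rfl e3.le
    (fun v => av_mem_EE hF.dec hF.hom v) b4 hnb4 (fun l => X l.succ + C (μ l) * X 0) hyh ?_ ζ hζ2 ?_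
  · intro c hc
    funext l
    have h1 := congrArg (eval (Pi.single l.succ 1 : Fin 5 → ℂ)) hc
    rw [map_sum] at h1
    have h2 : ∀ l' : Fin 4, eval (Pi.single l.succ 1 : Fin 5 → ℂ) (C (c l') * (X l'.succ + C (μ l') * X 0)) =
        if l' = l then c l' else 0 := by
      intro l'
      simp [Pi.single_apply, Fin.succ_inj, (Fin.succ_ne_zero l).symm]
    simp only [h2] at h1
    simpa using h1
  · intro i j
    refine ⟨fun a => ?_, fun a c e => ?_⟩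
    · exact ((hyh j).mul (hζ1 i a)).sub ((hyh i).mul (hζ1 j a))
    · rw [Pool.Agent.Helper71.FL.w12_sub (fun a => (X j.succ + C (μ j) * X 0) * ζ i a)
        (fun a => (X i.succ + C (μ i) * X 0) * ζ j a),
        Pool.Agent.Helper71.FL.w12_smul, Pool.Agent.Helper71.FL.w12_smul, ← hζ2, ← hζ2]
      ring

/-- a good flag -/
theorem exists_good {θ : F2 5} (h : Fol θ) : ∃ g g' : Fin 5 → Fin 5 → ℂ, Inv g g' ∧
    (∀ d : Fin 6, Module.finrank ℂ (EE (rs2 (pb2 g θ)) d) = ge θ 4 d) ∧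
    (∀ d : Fin 6, Module.finrank ℂ (EE (rs2 (rs2 (pb2 g θ))) d) = ge θ 3 d) ∧
    Fol (pb2 g θ) ∧ hz (pb2 g θ) ∧ Fol (rs2 (pb2 g θ)) ∧ hz (rs2 (pb2 g θ)) ∧
    Fol (rs2 (rs2 (pb2 g θ))) := by
  have hq : GenM (fun φ : Fin 5 → Fin 4 → ℂ =>
      ∀ d : Fin 6, Module.finrank ℂ (EE (pb2 φ θ) d) = ge θ 4 d) := GenM.all fun d => ge_gen θ 4 d
  have hr : GenM (fun φ : Fin 5 → Fin 3 → ℂ =>
      ∀ d : Fin 6, Module.finrank ℂ (EE (pb2 φ θ) d) = ge θ 3 d) := GenM.all fun d => ge_gen θ 3 d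
  obtain ⟨g, g', hg, -, h1, h2, h3, h4, h5, h6, h7⟩ := exists_flag2 (n := 3) le_rfl h
    (p := fun _ => True) ((GenM.inv 5).mono fun _ _ => trivial) hq hr
  refine ⟨g, g', hg, ?_, ?_, h3, h4, h5, h6, h7⟩
  · rw [rs2_pb2]
    exact h1
  · have e1 : rs2 (rs2 (pb2 g θ)) = pb2 (fun i (j : Fin 3) => g i j.succ.succ) θ := by
      rw [Pool.Agent.Helper71.FC.rs2_pb2, rs2_eq_pb2, pb2_mm]
      congr 1
      funext i j
      show ∑ l : Fin 4, g i l.succ * (if l = j.succ then (1 : ℂ) else 0) = _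
      simp
    rw [e1]
    exact h2

theorem v1 (hP2 : P2) {θ : F2 5} (hY : CY θ) (h30 : ge θ 3 0 = 0) (h31 : ge θ 3 1 = 0)
    (h32 : ge θ 3 2 = 1) (h33 : ge θ 3 3 = 6) (h42 : ge θ 4 2 = 0) (h43 : ge θ 4 3 = 6)
    (h3 : Module.finrank ℂ (EE θ 3) = 5) : False := by
  obtain ⟨g, g', hg, hq, hr, hF, hzV, hFH, hzH, hFP⟩ := exists_good hY.fol
  have q2 : Module.finrank ℂ (EE (rs2 (pb2 g θ)) 2) = 0 := (hq 2).trans h42
  have q3 : Module.finrank ℂ (EE (rs2 (pb2 g θ)) 3) = 6 := (hq 3).trans h43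
  have r0 : Module.finrank ℂ (EE (rs2 (rs2 (pb2 g θ))) 0) = 0 := (hr 0).trans h30
  have r1 : Module.finrank ℂ (EE (rs2 (rs2 (pb2 g θ))) 1) = 0 := (hr 1).trans h31
  have r2 : Module.finrank ℂ (EE (rs2 (rs2 (pb2 g θ))) 2) = 1 := (hr 2).trans h32
  have r3 : Module.finrank ℂ (EE (rs2 (rs2 (pb2 g θ))) 3) = 6 := (hr 3).trans h33
  have f1 := finite_EE (rs2 (pb2 g θ)) 2
  have f2 := finite_EE (rs2 (rs2 (pb2 g θ))) 0
  have f3 := finite_EE (rs2 (rs2 (pb2 g θ))) 1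
  rw [Submodule.finrank_eq_zero] at q2 r0 r1
  refine v1_flag hP2 hF hzV hFH hFP ?_ q2 q3 r0 r1 r2 r3
  rw [finrank_EE_pb2 θ 3 hg, h3]

end Pool.Agent.Helper71.ZV
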