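import Pool.Agent.Helper71.ZV.V1
import Pool.Agent.Helper71.ZV.RLt
import Pool.Agent.Helper12.Z4.Rank
import Pool.Agent.Helper53.TK.Pl

/-! ZV-5 (S00166, case Y, z = 4, section 6): `e_3(V) = 6`: `dim RL θ = 5` and a linear map `Bt : V → RL θ` with `Bt x x = 0`. -/

set_option autoImplicit false

namespace Pool.Agent.Helper71.ZV

open MvPolynomial
open scoped BigOperators
open Pool.Agent.Helper71.FL (w12 pf ct Dec Closed dd at0 emb res)
open Pool.Agent.Helper93 (lsub lmap OF pb)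
open Pool.Agent.Helper71.FC
open Pool.Agent.Helper12.Z4 (RL KX avE RK mem_RL mem_KX rank3)

variable {n m : ℕ}

/-- members of `E_3` of the hyperplane are combinations of restrictions -/
theorem span_res {θ : F2 (n + 1)} (hne : ∃ i j, rs2 θ i j ≠ 0) (h2 : EE θ 2 = ⊥) {e : ℕ} {ε : Fin e → F1 (n + 1)}
    (hε : ∀ i, ε i ∈ EE θ 3) (hsp : ∀ ξ ∈ EE θ 3, ∃ c : Fin e → ℂ, ξ = ∑ i, c i • ε i)
    (hd : Module.finrank ℂ (EE (rs2 θ) 3) ≤ Module.finrank ℂ (EE θ 3)) :
    ∀ ξ ∈ EE (rs2 θ) 3, ∃ c : Fin e → ℂ, ξ = ∑ i, c i • res (ε i) := by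
  intro ζ hζ
  obtain ⟨ξ, hξ, hr⟩ := Lft_of_finrank hne h2 hd ζ hζ
  obtain ⟨c, hc⟩ := hsp ξ hξ
  refine ⟨c, funext fun j => ?_⟩
  rw [← hr j, hc, Finset.sum_apply]
  show at0 n ℂ ((∑ i, c i • ε i : F1 (n + 1)) j.succ) = _
  rw [Finset.sum_apply, map_sum]
  refine Finset.sum_congr rfl fun i _ => ?_
  rw [Pi.smul_apply, map_smul]
  rfl

/-- restrictions of independent members of `E_3` are independent if `E_2 = 0` -/
theorem indep_res {θ : F2 (n + 1)} (hne : ∃ i j, rs2 θ i j ≠ 0) (h2 : EE θ 2 = ⊥) {e : ℕ} {ε : Fin e → F1 (n + 1)}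
    (hε : ∀ i, ε i ∈ EE θ 3) (hi : LinearIndependent ℂ ε) : LinearIndependent ℂ (fun i => res (ε i)) := by
  rw [Fintype.linearIndependent_iff]
  intro c hc
  have h1 : (∑ i, c i • ε i) ∈ EE θ 3 := Submodule.sum_mem _ fun i _ => Submodule.smul_mem _ _ (hε i)
  have h3 : resE θ 3 ⟨∑ i, c i • ε i, h1⟩ = 0 := by
    apply Subtype.ext
    funext j
    show at0 n ℂ ((∑ i, c i • ε i : F1 (n + 1)) j.succ) = 0
    rw [Finset.sum_apply, map_sum]
    have h4 := congrFun hc j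
    rw [Finset.sum_apply] at h4
    rw [← show (0 : F1 n) j = 0 from rfl, ← h4]
    refine Finset.sum_congr rfl fun i _ => ?_
    rw [Pi.smul_apply, Pi.smul_apply, map_smul]
    rfl
  have h5 : (⟨∑ i, c i • ε i, h1⟩ : EE θ 3) = 0 := by
    apply resE_inj hne h2
    rw [h3, map_zero]
  exact Fintype.linearIndependent_iff.mp hi _ (congrArg Subtype.val h5)

theorem dim_S (k : ℕ) : Module.finrank ℂ (homogeneousSubmodule (Fin 3) ℂ k) = (2 + k).choose k :=
  Pool.Agent.Helper18.LB.finrank_homog 2 k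

theorem v2_flag {θ : F2 5} (hF : Fol θ) (hzV : hz θ) (hFH : Fol (rs2 θ)) (hzH : hz (rs2 θ))
    (hFP : Fol (rs2 (rs2 θ))) (e2 : EE θ 2 = ⊥) (e3 : Module.finrank ℂ (EE θ 3) = 6)
    (h2 : EE (rs2 θ) 2 = ⊥) (h3 : Module.finrank ℂ (EE (rs2 θ) 3) = 6)
    (p0 : EE (rs2 (rs2 θ)) 0 = ⊥) (p1 : EE (rs2 (rs2 θ)) 1 = ⊥)
    (p2 : Module.finrank ℂ (EE (rs2 (rs2 θ)) 2) = 1) (p3 : Module.finrank ℂ (EE (rs2 (rs2 θ)) 3) = 6) :
    Module.finrank ℂ (RL θ) = 5 ∧ ∃ Bt : (Fin 5 → ℂ) →ₗ[ℂ] RL θ, Bt ≠ 0 ∧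
      ∀ x, (Bt x : (Fin 5 → ℂ) →ₗ[ℂ] EE θ 3) x = 0 := by
  have f0 := finite_EE θ 3
  have hneH := ne_of_Fol hFH
  have hneP := ne_of_Fol hFP
  -- a basis of `E_3(V)` and its restrictions
  let ε : Module.Basis (Fin 6) ℂ (EE θ 3) := (Module.finBasis ℂ (EE θ 3)).reindex (finCongr e3)
  let εV : Fin 6 → F1 5 := fun i => (ε i : F1 5)
  let εH : Fin 6 → F1 4 := fun i => res (εV i)
  let εP : Fin 6 → F1 3 := fun i => res (εH i)
  have hV : ∀ i, εV i ∈ EE θ 3 := fun i => (ε i).2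
  have hH : ∀ i, εH i ∈ EE (rs2 θ) 3 := fun i => res_mem_EE (hV i)
  have hP : ∀ i, εP i ∈ EE (rs2 (rs2 θ)) 3 := fun i => res_mem_EE (hH i)
  have sV : ∀ ξ ∈ EE θ 3, ∃ c : Fin 6 → ℂ, ξ = ∑ i, c i • εV i := by
    intro ξ hξ
    refine ⟨fun i => ε.repr ⟨ξ, hξ⟩ i, ?_⟩
    have h1 := congrArg Subtype.val (ε.sum_repr ⟨ξ, hξ⟩)
    rw [AddSubmonoidClass.coe_finsetSum] at h1
    exact h1.symm
  have sH := span_res hneH e2 hV sV (by rw [h3, e3])
  have sP := span_res hneP h2 hH sH (by rw [p3, h3])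
  have iV : LinearIndependent ℂ εV := by
    have := ε.linearIndependent.map' (EE θ 3).subtype (Submodule.ker_subtype _)
    exact this
  have iH : LinearIndependent ℂ εH := indep_res hneH e2 hV iV
  have iP : LinearIndependent ℂ εP := indep_res hneP h2 hH iH
  -- dimensions
  have hgen : ∀ k, 3 ≤ k → ∀ ξ ∈ EE (rs2 (rs2 θ)) (k + 1), ∃ f : Fin 3 → F1 3,
      (∀ l, f l ∈ EE (rs2 (rs2 θ)) k) ∧ ∀ i, ξ i = ∑ l, X l * f l i := fun k hk ξ hξ =>
    Pool.Agent.Helper53.TK.pl_gen hFP p0 p1 p2 p3 k hk hξ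
  have d4 := Pool.Agent.Helper53.TK.pl_ek hFP p0 p1 p2 p3 4 (by norm_num)
  have d5 := Pool.Agent.Helper53.TK.pl_ek hFP p0 p1 p2 p3 5 (by norm_num)
  have sj := mulE_surj hP sP hgen
  have P1 : 6 * Module.finrank ℂ (homogeneousSubmodule (Fin 3) ℂ 1) =
      Module.finrank ℂ (EE (rs2 (rs2 θ)) 4) + Module.finrank ℂ (RK εP 1) := RK_eq hP 1 (sj 1)
  have P2 : 6 * Module.finrank ℂ (homogeneousSubmodule (Fin 3) ℂ 2) =
      Module.finrank ℂ (EE (rs2 (rs2 θ)) 5) + Module.finrank ℂ (RK εP 2) := RK_eq hP 2 (sj 2)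
  rw [dim_S] at P1 P2
  have c1 : (2 + 1).choose 1 = 3 := rfl
  have c2 : (2 + 2).choose 2 = 6 := rfl
  rw [c1] at P1
  rw [c2] at P2
  have H1 : Module.finrank ℂ (RK εH 1) ≤ Module.finrank ℂ (RK εP 1) + Module.finrank ℂ (RK εH 0) := count_RK εH 0
  have H2 : Module.finrank ℂ (RK εH 2) ≤ Module.finrank ℂ (RK εP 2) + Module.finrank ℂ (RK εH 1) := count_RK εH 1
  have V1 : Module.finrank ℂ (RK εV 1) ≤ Module.finrank ℂ (RK εH 1) + Module.finrank ℂ (RK εV 0) := count_RK εV 0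
  have V2 : Module.finrank ℂ (RK εV 2) ≤ Module.finrank ℂ (RK εH 2) + Module.finrank ℂ (RK εV 1) := count_RK εV 1
  have z1 := RK_zero iH
  have z2 := RK_zero iV
  have q1 : Module.finrank ℂ (EE (rs2 (rs2 θ)) 4) + Module.finrank ℂ (EE (rs2 θ) 3) =
      Module.finrank ℂ (EE (rs2 θ) 4) + kM (rs2 θ) 6 := count_E (by norm_num) hFH.hom hFH.dec hFP.prim2 hzH 3
  have q2 : Module.finrank ℂ (EE (rs2 θ) 4) + Module.finrank ℂ (EE θ 3) =
      Module.finrank ℂ (EE θ 4) + kM θ 6 := count_E (by norm_num) hF.hom hF.dec hFH.prim2 hzV 3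
  have L1 : 6 * Module.finrank ℂ (homogeneousSubmodule (Fin 5) ℂ 1) ≤
      Module.finrank ℂ (EE θ 4) + Module.finrank ℂ (RK εV 1) := RK_ge hV 1
  have c3 : Module.finrank ℂ (homogeneousSubmodule (Fin 5) ℂ 1) = 5 :=
    Pool.Agent.Helper18.LB.finrank_homog 4 1
  rw [c3] at L1
  have r1 : Module.finrank ℂ (RK εV 1) = 5 := by omega
  have r2 : Module.finrank ℂ (RK εV 2) ≤ 24 := by omega
  refine ⟨(finrank_RL ε).trans r1, ?_⟩
  -- the second level
  have f1 := finite_RK εV 1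
  have f2 := finite_RK εV 2
  let g : (Fin 5 → RK εV 1) →ₗ[ℂ] RK εV 2 :=
    { toFun := fun c => ⟨fun i => ∑ l, X l * (c l).1 i, fun i => by
          refine IsHomogeneous.sum _ _ _ fun l _ => ?_
          exact (isHomogeneous_X ℂ l).mul ((c l).2.1 i), fun j => by
          have h1 : ∑ i, (∑ l, X l * (c l).1 i) * εV i j = ∑ l, X l * ∑ i, (c l).1 i * εV i j := by
            simp only [Finset.sum_mul, Finset.mul_sum]
            rw [Finset.sum_comm]
            exact Finset.sum_congr rfl fun l _ => Finset.sum_congr rfl fun i _ => by ring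
          rw [h1]
          exact Finset.sum_eq_zero fun l _ => by rw [(c l).2.2 j, mul_zero]⟩
      map_add' := fun a b => by
        apply Subtype.ext
        funext i
        show ∑ l, X l * ((a l).1 i + (b l).1 i) = ∑ l, X l * (a l).1 i + ∑ l, X l * (b l).1 i
        rw [← Finset.sum_add_distrib]
        exact Finset.sum_congr rfl fun l _ => by ring
      map_smul' := fun t a => by
        apply Subtype.ext
        funext i
        show ∑ l, X l * (t • (a l).1 i) = t • ∑ l, X l * (a l).1 i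
        rw [Finset.smul_sum]
        exact Finset.sum_congr rfl fun l _ => by rw [mul_smul_comm] }
  have hker : LinearMap.ker g ≠ ⊥ := by
    intro h
    have h4 := LinearMap.finrank_le_finrank_of_injective (LinearMap.ker_eq_bot.mp h)
    have h5 : Module.finrank ℂ (Fin 5 → RK εV 1) = 25 := by
      rw [Module.finrank_pi_fintype]
      simp [r1]
    omega
  obtain ⟨c, hc, hc0⟩ := Submodule.exists_mem_ne_zero_of_ne_bot hker
  rw [LinearMap.mem_ker] at hc
  obtain ⟨T, hT, hT2⟩ := exists_toX ε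
  let Bt : (Fin 5 → ℂ) →ₗ[ℂ] RL θ :=
    { toFun := fun y => ∑ l, y l • T (c l)
      map_add' := fun x y => by
        rw [← Finset.sum_add_distrib]
        exact Finset.sum_congr rfl fun l _ => by rw [Pi.add_apply, add_smul]
      map_smul' := fun t x => by
        rw [RingHom.id_apply, Finset.smul_sum]
        exact Finset.sum_congr rfl fun l _ => by rw [Pi.smul_apply, smul_eq_mul, mul_smul] }
  have hBt : ∀ y, Bt y = ∑ l, y l • T (c l) := fun y => rfl
  refine ⟨Bt, ?_, fun x => ?_⟩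
  · intro h
    apply hc0
    funext l
    apply hT
    rw [Pi.zero_apply, map_zero]
    have h6 := LinearMap.congr_fun h (Pi.single l 1)
    rw [hBt, Finset.sum_eq_single l] at h6
    · rw [Pi.single_eq_same, one_smul] at h6
      exact h6
    · intro b _ hb
      rw [Pi.single_eq_of_ne hb, zero_smul]
    · intro hl
      exact absurd (Finset.mem_univ _) hl
  · rw [hBt]
    have h7 : ((∑ l, x l • T (c l) : RL θ) : (Fin 5 → ℂ) →ₗ[ℂ] EE θ 3) x =
        ∑ l, x l • (T (c l)).1 x := by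
      rw [AddSubmonoidClass.coe_finsetSum, LinearMap.sum_apply]
      rfl
    rw [h7]
    have h8 : ∀ i, ∑ l, x l * eval x ((c l).1 i) = 0 := by
      intro i
      have h9 : ∑ l, X l * (c l).1 i = (0 : Pn 5) := congrFun (congrArg Subtype.val hc) i
      have h10 := congrArg (eval x) h9
      rw [map_sum, map_zero] at h10
      rw [← h10]
      exact Finset.sum_congr rfl fun l _ => by rw [map_mul, eval_X]
    simp only [hT2, Finset.smul_sum, smul_smul]
    rw [Finset.sum_comm]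
    refine Finset.sum_eq_zero fun i _ => ?_
    rw [← Finset.sum_smul, h8, zero_smul]

/-- a general point lies on a general subspace, as the image of the first basis vector -/
theorem Gen_col {p : (Fin n → Fin (m + 1) → ℂ) → Prop} (hp : GenM p) :
    Gen (fun x : Fin n → ℂ => ∃ φ, p φ ∧ lmap φ (Pi.single 0 1) = x) := by
  obtain ⟨F, hF, hp⟩ := hp
  obtain ⟨φ0, h0⟩ : ∃ φ0 : Fin n × Fin (m + 1) → ℂ, eval φ0 F ≠ 0 := by
    by_contra hcon
    push Not at hcon
    exact hF (MvPolynomial.funext fun x => by rw [hcon x, map_zero])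
  let G : Pn n := aeval (fun q : Fin n × Fin (m + 1) => if q.2 = 0 then (X q.1 : Pn n) else C (φ0 q)) F
  have hG : ∀ x : Fin n → ℂ, eval x G = eval (fun q : Fin n × Fin (m + 1) => if q.2 = 0 then x q.1 else φ0 q) F := by
    intro x
    show eval x (aeval (fun q : Fin n × Fin (m + 1) => if q.2 = 0 then (X q.1 : Pn n) else C (φ0 q)) F) = _
    rw [← coe_aeval_eq_eval, ← coe_aeval_eq_eval]
    show (aeval x) (aeval _ F) = aeval _ F
    rw [← AlgHom.comp_apply]
    congr 1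
    apply MvPolynomial.algHom_ext
    intro q
    rw [AlgHom.comp_apply, aeval_X, aeval_X]
    split_ifs
    · rw [aeval_X]
    · rw [aeval_C]
      rfl
  refine ⟨G, ?_, fun x hx => ?_⟩
  · intro h
    apply h0
    have h1 := hG (fun i => φ0 (i, 0))
    rw [h, map_zero] at h1
    have h2 : (fun q : Fin n × Fin (m + 1) => if q.2 = 0 then φ0 (q.1, 0) else φ0 q) = φ0 := by
      funext q
      rcases q with ⟨a, b⟩
      by_cases hb : b = 0
      · subst hb
        simp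
      · simp [hb]
    rw [h2] at h1
    exact h1.symm
  · rw [hG] at hx
    refine ⟨fun i j => if j = 0 then x i else φ0 (i, j), hp _ hx, ?_⟩
    funext i
    show ∑ j : Fin (m + 1), (if j = 0 then x i else φ0 (i, j)) * (Pi.single 0 (1 : ℂ) : Fin (m + 1) → ℂ) j = x i
    rw [Finset.sum_eq_single 0]
    · simp
    · intro j _ hj
      rw [Pi.single_eq_of_ne hj, mul_zero]
    · intro h
      exact absurd (Finset.mem_univ _) h

/-- `X` kills a space of dimension `n - 2`: `X = 0` -/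
theorem zero_of_kill {θ : F2 n} (h2 : EE θ 2 = ⊥) {X : (Fin n → ℂ) →ₗ[ℂ] EE θ 3} (hX : X ∈ RL θ)
    (K : Submodule ℂ (Fin n → ℂ)) (hK : n ≤ Module.finrank ℂ K + 2) (hk : ∀ x ∈ K, X x = 0) : X = 0 := by
  refine rank3 h2 hX ?_
  have h3 : K ≤ LinearMap.ker X := fun x hx => LinearMap.mem_ker.mpr (hk x hx)
  have h4 := Submodule.finrank_mono h3
  have h5 := LinearMap.finrank_range_add_finrank_ker X
  rw [Module.finrank_fin_fun] at h5
  omega

/-- a non-zero linear map is non-zero at general points -/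
theorem gen_ne {θ : F2 n} (Bt : (Fin m → ℂ) →ₗ[ℂ] RL θ) {y0 : Fin m → ℂ} (hy0 : Bt y0 ≠ 0) :
    Gen (fun x : Fin m → ℂ => Bt x ≠ 0) := by
  obtain ⟨z, hz⟩ : ∃ z, (Bt y0).1 z ≠ 0 := by
    by_contra hcon
    push Not at hcon
    exact hy0 (Subtype.ext (LinearMap.ext hcon))
  obtain ⟨j, hj⟩ : ∃ j, ((Bt y0).1 z : F1 n) j ≠ 0 := by
    by_contra hcon
    push Not at hcon
    exact hz (Subtype.ext (funext hcon))
  obtain ⟨s, hs⟩ := exists_coeff_ne_zero hj
  let L : (Fin m → ℂ) →ₗ[ℂ] ℂ :=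
    { toFun := fun x => coeff s (((Bt x).1 z : F1 n) j)
      map_add' := fun x y => by
        have e6 : (Bt (x + y)).1 = (Bt x).1 + (Bt y).1 := congrArg Subtype.val (map_add Bt x y)
        rw [e6, LinearMap.add_apply]
        exact coeff_add _ _ _
      map_smul' := fun t x => by
        have e6 : (Bt (t • x)).1 = t • (Bt x).1 := congrArg Subtype.val (map_smul Bt t x)
        rw [e6, LinearMap.smul_apply]
        exact coeff_smul _ _ _ }
  let F : MvPolynomial (Fin m) ℂ := ∑ l, C (L (Pi.single l 1)) * X l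
  have hF : ∀ x : Fin m → ℂ, eval x F = L x := by
    intro x
    show eval x (∑ l, C (L (Pi.single l 1)) * X l) = L x
    have h1 : L x = ∑ l, x l • L (Pi.single l 1) := by
      conv_lhs => rw [show x = ∑ l, x l • (Pi.single l (1 : ℂ) : Fin m → ℂ) by
        funext k
        simp [Finset.sum_apply, Pi.single_apply]]
      rw [map_sum]
      exact Finset.sum_congr rfl fun l _ => map_smul _ _ _
    rw [h1, map_sum]
    refine Finset.sum_congr rfl fun l _ => ?_
    rw [map_mul, eval_C, eval_X, smul_eq_mul, mul_comm]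
  refine ⟨F, ?_, fun x hx h0 => ?_⟩
  · intro h
    apply hs
    have h1 := hF y0
    rw [h, map_zero] at h1
    exact h1.symm
  · apply hx
    rw [hF]
    show coeff s (((Bt x).1 z : F1 n) j) = 0
    rw [h0]
    show coeff s ((0 : F1 n) j) = 0
    rw [Pi.zero_apply, coeff_zero]

/-- relations of the plane vanishing at a point are proportional (helper53, `pl_RL_pt`) -/
def P4 : Prop := ∀ θ : F2 3, Fol θ → EE θ 0 = ⊥ → EE θ 1 = ⊥ → Module.finrank ℂ (EE θ 2) = 1 →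
  ∀ X X' : (Fin 3 → ℂ) →ₗ[ℂ] EE θ 3, X ∈ RL θ → X' ∈ RL θ → ∀ p : Fin 3 → ℂ, p ≠ 0 → X p = 0 → X' p = 0 →
    ∃ c c' : ℂ, (c ≠ 0 ∨ c' ≠ 0) ∧ c • X + c' • X' = 0

theorem v2 (hP4 : P4) {θ : F2 5} (hY : CY θ) (h30 : ge θ 3 0 = 0) (h31 : ge θ 3 1 = 0)
    (h32 : ge θ 3 2 = 1) (h33 : ge θ 3 3 = 6) (h42 : ge θ 4 2 = 0) (h43 : ge θ 4 3 = 6)
    (h3 : Module.finrank ℂ (EE θ 3) = 6) :
    Module.finrank ℂ (RL θ) = 5 ∧ ∃ Bt : (Fin 5 → ℂ) →ₗ[ℂ] RL θ, Bt ≠ 0 ∧
    (∀ x, (Bt x : (Fin 5 → ℂ) →ₗ[ℂ] EE θ 3) x = 0) ∧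
    Module.finrank ℂ (LinearMap.ker Bt) ≤ 1 ∧
    Gen (fun x : Fin 5 → ℂ => ∀ X ∈ RL θ, X x = 0 →
      ∃ c : ℂ, X = c • (Bt x : (Fin 5 → ℂ) →ₗ[ℂ] EE θ 3)) := by
  obtain ⟨g, g', hg, hq, hr, hF, hzV, hFH, hzH, hFP⟩ := exists_good hY.fol
  have q2 : Module.finrank ℂ (EE (rs2 (pb2 g θ)) 2) = 0 := (hq 2).trans h42
  have q3 : Module.finrank ℂ (EE (rs2 (pb2 g θ)) 3) = 6 := (hq 3).trans h43
  have r0 : Module.finrank ℂ (EE (rs2 (rs2 (pb2 g θ))) 0) = 0 := (hr 0).trans h30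
  have r1 : Module.finrank ℂ (EE (rs2 (rs2 (pb2 g θ))) 1) = 0 := (hr 1).trans h31
  have r2 : Module.finrank ℂ (EE (rs2 (rs2 (pb2 g θ))) 2) = 1 := (hr 2).trans h32
  have r3 : Module.finrank ℂ (EE (rs2 (rs2 (pb2 g θ))) 3) = 6 := (hr 3).trans h33
  have s2 : Module.finrank ℂ (EE (pb2 g θ) 2) = 0 := by
    rw [finrank_EE_pb2 θ 2 hg, hY.e2, finrank_bot]
  have s3 : Module.finrank ℂ (EE (pb2 g θ) 3) = 6 := by rw [finrank_EE_pb2 θ 3 hg, h3]
  have f0 := finite_EE (pb2 g θ) 2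
  have f1 := finite_EE (rs2 (pb2 g θ)) 2
  have f2 := finite_EE (rs2 (rs2 (pb2 g θ))) 0
  have f3 := finite_EE (rs2 (rs2 (pb2 g θ))) 1
  have f4 := finite_EE θ 3
  rw [Submodule.finrank_eq_zero] at q2 r0 r1 s2
  obtain ⟨h5, Bt', hB0', hBx'⟩ := v2_flag hF hzV hFH hzH hFP s2 s3 q2 q3 r0 r1 r2 r3
  have hne1 := ne_of_Fol hFH
  have hne2 := ne_of_Fol hFP
  -- transport
  obtain ⟨T, hT, hT2⟩ := exists_transport (θ := θ) hg
  let Bt : (Fin 5 → ℂ) →ₗ[ℂ] RL θ := T ∘ₗ Bt' ∘ₗ lmap g'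
  have hBt : ∀ x, Bt x = T (Bt' (lmap g' x)) := fun x => rfl
  have hBx : ∀ x, (Bt x : (Fin 5 → ℂ) →ₗ[ℂ] EE θ 3) x = 0 := by
    intro x
    apply Subtype.ext
    rw [hBt]
    refine (hT2 _ x).trans ?_
    rw [hBx']
    exact Pool.Agent.Helper53.TK.pb_zero' g'
  have hB0 : Bt ≠ 0 := by
    intro h
    apply hB0'
    apply LinearMap.ext
    intro y
    apply hT
    have h6 := LinearMap.congr_fun h (lmap g y)
    rw [hBt, lmap_inv hg.symm] at h6
    rw [h6, LinearMap.zero_apply, LinearMap.zero_apply, map_zero]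
  have hpol : ∀ x y, (Bt x).1 y = - (Bt y).1 x := by
    intro x y
    have h6 := hBx (x + y)
    have e6 : (Bt (x + y)).1 = (Bt x).1 + (Bt y).1 := congrArg Subtype.val (map_add Bt x y)
    have h7 : (Bt x).1 x + (Bt x).1 y + ((Bt y).1 x + (Bt y).1 y) = 0 := by
      rw [e6, LinearMap.add_apply, map_add, map_add] at h6
      exact h6
    rw [hBx x, hBx y, zero_add, add_zero] at h7
    exact eq_neg_of_add_eq_zero_left h7
  obtain ⟨y0, hy0⟩ : ∃ y, Bt y ≠ 0 := by
    by_contra hcon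
    push Not at hcon
    exact hB0 (LinearMap.ext hcon)
  have hker : Module.finrank ℂ (LinearMap.ker Bt) ≤ 1 := by
    by_contra hcon
    push Not at hcon
    apply hy0
    apply Subtype.ext
    refine zero_of_kill hY.e2 (Bt y0).2 (LinearMap.ker Bt ⊔ Submodule.span ℂ {y0}) ?_ ?_
    · have h6 : LinearMap.ker Bt ⊓ Submodule.span ℂ {y0} = ⊥ := by
        rw [Submodule.eq_bot_iff]
        rintro z ⟨hz1, hz2⟩
        obtain ⟨c, rfl⟩ := Submodule.mem_span_singleton.mp hz2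
        have hz3 : c • Bt y0 = 0 := by
          rw [← map_smul]
          exact LinearMap.mem_ker.mp hz1
        rcases smul_eq_zero.mp hz3 with h7 | h7
        · rw [h7, zero_smul]
        · exact absurd h7 hy0
      have h7 := Submodule.finrank_sup_add_finrank_inf_eq (LinearMap.ker Bt) (Submodule.span ℂ {y0})
      have h8 : y0 ≠ 0 := by
        rintro rfl
        exact hy0 (map_zero _)
      rw [h6, finrank_bot, finrank_span_singleton h8] at h7
      omega
    · intro x hx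
      obtain ⟨a, ha, b, hb, rfl⟩ := Submodule.mem_sup.mp hx
      obtain ⟨c, rfl⟩ := Submodule.mem_span_singleton.mp hb
      have ha' : Bt a = 0 := LinearMap.mem_ker.mp ha
      rw [map_add, map_smul, hBx y0, smul_zero, add_zero, hpol y0 a, ha']
      show - (0 : (Fin 5 → ℂ) →ₗ[ℂ] EE θ 3) y0 = 0
      rw [LinearMap.zero_apply, neg_zero]
  refine ⟨(finrank_RL_pb2' θ hg).symm.trans h5, Bt, hB0, hBx, hker, ?_⟩
  -- general planes
  have hinj0 : ∀ ξ ∈ EE θ 3, pb (fun i (j : Fin 3) => g i j.succ.succ) ξ = 0 → ξ = 0 := by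
    intro ξ hξ h6
    have h7 : res (res (pb g ξ)) = 0 := by
      rw [res_pb]
      have : res (pb (fun i (j : Fin 4) => g i j.succ) ξ) = pb (fun i (j : Fin 3) => g i j.succ.succ) ξ := by
        have h8 : res (pb (fun i (j : Fin 4) => g i j.succ) ξ) =
            pb (fun (k : Fin 4) (l : Fin 3) => if k = l.succ then (1 : ℂ) else 0)
              (pb (fun i (j : Fin 4) => g i j.succ) ξ) := by
          funext i
          show at0 3 ℂ (pb (fun i (j : Fin 4) => g i j.succ) ξ i.succ) = _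
          unfold pb
          rw [Finset.sum_eq_single (a := i.succ)
            (f := fun k => C (if k = i.succ then (1 : ℂ) else 0) * lsub _ (∑ j, C (g j k.succ) * lsub _ (ξ j)))]
          · rw [if_pos rfl, C_1, one_mul, at0_eq_lsub]
          · intro k _ hk
            rw [if_neg hk, C_0, zero_mul]
          · intro h
            exact absurd (Finset.mem_univ _) h
        rw [h8, pb_mm]
        congr 1
        funext i j
        show ∑ l : Fin 4, g i l.succ * (if l = j.succ then (1 : ℂ) else 0) = _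
        simp
      rw [this, h6]
    have h8 : res (pb g ξ) ∈ EE (rs2 (pb2 g θ)) 3 := res_mem_EE (EE_pb hξ g)
    have h9 : (⟨res (pb g ξ), h8⟩ : EE (rs2 (pb2 g θ)) 3) = 0 := by
      apply resE_inj hne2 q2
      rw [map_zero]
      exact Subtype.ext h7
    have h10 : (⟨pb g ξ, EE_pb hξ g⟩ : EE (pb2 g θ) 3) = 0 := by
      apply resE_inj hne1 s2
      rw [map_zero]
      exact Subtype.ext (congrArg Subtype.val h9)
    have h11 : pb g' (pb g ξ) = 0 := by
      rw [show pb g ξ = 0 from congrArg Subtype.val h10]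
      exact Pool.Agent.Helper53.TK.pb_zero' g'
    rwa [pb_mm, hg.1, pb_idm] at h11
  have G1 := Pool.Agent.Helper53.TK.genM_inj_of_exists (EE θ 3) hinj0
  have G2 := (((Fol_gen (m := 3) le_rfl (by norm_num) hY.fol).and (GenM.inj (m := 3) (n := 5) (by norm_num))).and
    ((ge_gen θ 3 0).and ((ge_gen θ 3 1).and (ge_gen θ 3 2)))).and G1
  have G3 := Gen_col G2
  have G4 : Gen (fun x : Fin 5 → ℂ => Bt x ≠ 0) := gen_ne Bt hy0
  refine (G3.and G4).mono ?_
  rintro x ⟨⟨φ, ⟨⟨⟨a1, a2⟩, a3, a4, a5⟩, a6⟩, hφx⟩, hx0⟩ X hX hXx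
  have f5 := finite_EE (pb2 φ θ) 0
  have f6 := finite_EE (pb2 φ θ) 1
  rw [h30, Submodule.finrank_eq_zero] at a3
  rw [h31, Submodule.finrank_eq_zero] at a4
  rw [h32] at a5
  obtain ⟨S, hS⟩ := exists_rlt (θ := θ) (φ := φ) rfl
  have e0 : (Pi.single 0 1 : Fin 3 → ℂ) ≠ 0 := by
    intro h
    have := congrFun h 0
    simp at this
  have b1 : (S ⟨X, hX⟩).1 (Pi.single 0 1) = 0 := by
    apply Subtype.ext
    rw [hS, hφx]
    show pb φ (X x : F1 5) = 0
    rw [hXx]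
    exact Pool.Agent.Helper53.TK.pb_zero' φ
  have b2 : (S (Bt x)).1 (Pi.single 0 1) = 0 := by
    apply Subtype.ext
    rw [hS, hφx, hBx]
    exact Pool.Agent.Helper53.TK.pb_zero' φ
  obtain ⟨c, c', hc, hcc⟩ := hP4 _ a1 a3 a4 a5 _ _ (S ⟨X, hX⟩).2 (S (Bt x)).2 _ e0 b1 b2
  -- the combination restricts to zero
  have b3 : c • X + c' • (Bt x).1 = 0 := by
    refine zero_of_kill hY.e2 (Submodule.add_mem _ (Submodule.smul_mem _ _ hX) (Submodule.smul_mem _ _ (Bt x).2))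
      (LinearMap.range (lmap φ)) ?_ ?_
    · rw [LinearMap.finrank_range_of_inj a2, Module.finrank_fin_fun]
    · rintro _ ⟨p, rfl⟩
      apply Subtype.ext
      apply a6 _ (Subtype.prop _)
      have b4 := congrArg Subtype.val (LinearMap.congr_fun hcc p)
      have b5 : ((c • (S ⟨X, hX⟩).1 + c' • (S (Bt x)).1) p : F1 3) =
          c • ((S ⟨X, hX⟩).1 p : F1 3) + c' • ((S (Bt x)).1 p : F1 3) := rfl
      rw [b5, hS, hS, ← Pool.Agent.Helper53.TK.pb_csmul, ← Pool.Agent.Helper53.TK.pb_csmul,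
        ← Pool.Agent.Helper53.TK.pb_add''] at b4
      exact b4
  by_cases hc0 : c = 0
  · exfalso
    rw [hc0, zero_smul, zero_add] at b3
    rcases smul_eq_zero.mp b3 with h6 | h6
    · rcases hc with h7 | h7
      · exact h7 hc0
      · exact h7 h6
    · exact hx0 (Subtype.ext h6)
  · refine ⟨- (c⁻¹ * c'), ?_⟩
    have h6 : X = c⁻¹ • (c • X + c' • (Bt x).1) + (- (c⁻¹ * c')) • (Bt x).1 := by
      rw [smul_add, smul_smul, smul_smul, inv_mul_cancel₀ hc0, one_smul, add_assoc, ← add_smul,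
        add_neg_cancel, zero_smul, add_zero]
    rw [b3, smul_zero, zero_add] at h6
    exact h6

end Pool.Agent.Helper71.ZV
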